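import Pool.Agent.H30.VGH.Targets

/-!
# MP_70ba79_ag: targets of the board `vgh_modules`, blocks (X) (exceptional set) and (V)
(derivations)
-/

set_option autoImplicit false

namespace Pool.Agent.H30.VGH

open SC Pool.Agent.H27.LV MvPolynomial

/-! ### Block (V): derivations -/

/-- DEX: derivations with prescribed values on algebraically independent elements -/
def T_DEX : Prop := ∀ (L : Type) [Field L] [CharZero L] (ι : Type) (c : ι → L),
  AlgebraicIndependent ℚ c → ∀ w : ι → L, ∃ D : Derivation ℤ L L, ∀ i, D (c i) = w i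

/-- DLI: extension of derivations -/
def T_DLI : Prop := ∀ (k K : Type) [Field k] [CharZero k] [Field K] [Algebra k K]
  (δ : Derivation ℤ k K), ∃ D : Derivation ℤ K K, ∀ c : k, D (algebraMap k K c) = δ c

/-- BDD: derivations which preserve the field of constants are bounded at every place -/
def T_BDD : Prop := ∀ (k K : Type) [Field k] [IsAlgClosed k] [CharZero k] [Field K] [Algebra k K]
  [Algebra.EssFiniteType k K], Algebra.trdeg k K = 1 → ∀ θ : Derivation ℤ K K,
  (∀ c : k, θ (algebraMap k K c) ∈ Set.range (algebraMap k K)) → ∀ v : DV k K,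
  ∃ B : ℤ, ∀ z : K, 0 ≤ v.ord z → ge v B (θ z)

/-- BDV: such a derivation which kills the uniformizer does not lower the order -/
def T_BDV : Prop := ∀ (k K : Type) [Field k] [IsAlgClosed k] [CharZero k] [Field K] [Algebra k K]
  [Algebra.EssFiniteType k K], Algebra.trdeg k K = 1 → ∀ θ : Derivation ℤ K K,
  (∀ c : k, θ (algebraMap k K c) ∈ Set.range (algebraMap k K)) → ∀ v : DV k K,
  θ v.unif = 0 → ∀ z : K, z ≠ 0 → ge v (v.ord z) (θ z)

/-! ### Block (X): the exceptional set is not dense -/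

/-- ELI: elimination -/
def T_ELI : Prop := ∀ (k : Type) [Field k] (σ τ : Type) (I : Set (MvPolynomial (σ ⊕ τ) k)),
  (∃ Φ : MvPolynomial σ k, Φ ≠ 0 ∧ rename Sum.inl Φ ∈ Ideal.span I) ∨
  ∃ (Ω : Type) (_ : Field Ω) (_ : Algebra k Ω) (x : σ → Ω) (y : τ → Ω),
    AlgebraicIndependent k x ∧ ∀ f ∈ I, aeval (Sum.elim x y) f = 0

/-- XDM: the dimension count -/
def T_XDM : Prop := ∀ (L : Type) [Field L] [CharZero L] (n d : ℕ)
  (F : MvPolynomial (Fin (n + 1)) L) (x y : Fin (n + 1) → L) (a b : ℕ) (l m : Fin 2 → L),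
  F.IsHomogeneous d → plu x y ≠ 0 → a + b + 2 = d → n + 2 ≤ d →
  (∀ s t : L, eval (lpt x y s t) F =
    (l 0 * s + l 1 * t) ^ (a + 1) * (m 0 * s + m 1 * t) ^ (b + 1)) →
  ¬ ∀ G : MvPolynomial (Fin (n + 1)) L, G.IsHomogeneous d →
    ∃ (z : Fin (n + 1) → L) (q : Fin 3 → L), ∀ s t : L,
      eval (lpt x y s t) G + t * ∑ j, eval (lpt x y s t) (pderiv j F) * z j =
        (l 0 * s + l 1 * t) ^ a * (m 0 * s + m 1 * t) ^ b *
          (q 0 * s ^ 2 + q 1 * s * t + q 2 * t ^ 2)

/-- XDR: derivations of the coefficients -/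
def T_XDR : Prop := ∀ (k L : Type) [Field k] [CharZero k] [Field L] [Algebra k L] (n d : ℕ)
  (F : MvPolynomial (Fin (n + 1)) k) (x y : Fin (n + 1) → L) (a b : ℕ) (l m : Fin 2 → L),
  F.IsHomogeneous d → AlgebraicIndependent ℚ (fun M : Mon (n + 1) d => coeff (fs M.1) F) →
  AlgebraicIndependent k x → a + b + 2 = d →
  (∀ s t : L, eval (lpt x y s t) (MvPolynomial.map (algebraMap k L) F) =
    (l 0 * s + l 1 * t) ^ (a + 1) * (m 0 * s + m 1 * t) ^ (b + 1)) →
  ∀ G : MvPolynomial (Fin (n + 1)) L, G.IsHomogeneous d →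
    ∃ (z : Fin (n + 1) → L) (q : Fin 3 → L), ∀ s t : L,
      eval (lpt x y s t) G + t * ∑ j, eval (lpt x y s t)
        (pderiv j (MvPolynomial.map (algebraMap k L) F)) * z j =
        (l 0 * s + l 1 * t) ^ a * (m 0 * s + m 1 * t) ^ b *
          (q 0 * s ^ 2 + q 1 * s * t + q 2 * t ^ 2)

/-- XFN: the points on lines which meet `F = 0` in at most two points are not dense -/
def T_XFN : Prop := ∀ (k : Type) [Field k] [CharZero k] (n d : ℕ)
  (F : MvPolynomial (Fin (n + 1)) k), n + 2 ≤ d → F.IsHomogeneous d →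
  AlgebraicIndependent ℚ (fun M : Mon (n + 1) d => coeff (fs M.1) F) →
  ∃ (N : ℕ) (Φ : MvPolynomial (Fin (n + 1)) k), Φ ≠ 0 ∧ Φ.IsHomogeneous N ∧
    ∀ (L : Type) [Field L] [Algebra k L] (x y : Fin (n + 1) → L), plu x y ≠ 0 →
      TwoPt d (MvPolynomial.map (algebraMap k L) F) x y → aeval x Φ = 0

end Pool.Agent.H30.VGH
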