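import Pool.Agent.H27.LV.Targets2

/-!
# MP_70ba79_ag: complements of very general hypersurfaces, common definitions

Board `vgh_modules`. Places are the discrete valuations `SC.DV k K` (API in
`Pool/Agent/H64/SC/Api.lean`), `ge`, `ordD`, `canDeg`, `DOrd` are from `Pool/Agent/H27/LV`.
-/

set_option autoImplicit false

namespace Pool.Agent.H30.VGH

open SC Pool.Agent.H27.LV

section Local

variable {k K : Type} [Field k] [Field K] [Algebra k K]

/-- order of the pole of `τ` at `v` -/
def pe (v : DV k K) (τ : K) : ℤ := max 0 (-(v.ord τ))

/-- all the coefficients of `p` have order at least `m` at `v` -/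
def Cge (v : DV k K) (m : ℤ) (p : Polynomial K) : Prop := ∀ i, ge v m (p.coeff i)

/-- the derivation `D` applied to the coefficients of `p` -/
noncomputable def cD (D : Derivation k K K) (p : Polynomial K) : Polynomial K :=
  p.sum fun i c => Polynomial.monomial i (D c)

open Classical in
/-- the local height `- min_i ord_v (z i)` of a family `z ≠ 0` (`0` if `z = 0`) -/
noncomputable def lh {ι : Type} [Fintype ι] (v : DV k K) (z : ι → K) : ℤ :=
  if h : (Finset.univ.filter fun i => z i ≠ 0).Nonempty then
    (Finset.univ.filter fun i => z i ≠ 0).sup' h fun i => -(v.ord (z i)) else 0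

/-- the height of a family `z ≠ 0`: the degree of the pull back of `O(1)` under the map
`(z_0 : … : z_n)` from the smooth projective model of `K` to projective space -/
noncomputable def hgt (k : Type) {K : Type} [Field k] [Field K] [Algebra k K] {ι : Type}
    [Fintype ι] (z : ι → K) : ℤ := ∑ᶠ v : DV k K, lh v z

end Local

/-- number of the distinct roots in an algebraic closure -/
noncomputable def nr {K : Type} [Field K] (P : Polynomial K) : ℕ :=
  (P.rootSet (AlgebraicClosure K)).ncard

section Line

variable {L : Type} [Field L] {n : ℕ}

/-- the point `s x + t y` of the line through `x` and `y` -/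
def lpt (x y : Fin (n + 1) → L) (s t : L) : Fin (n + 1) → L := fun i => s * x i + t * y i

/-- the Plücker coordinates of the line through `x` and `y` -/
def plu (x y : Fin (n + 1) → L) : Fin (n + 1) × Fin (n + 1) → L :=
  fun ij => x ij.1 * y ij.2 - x ij.2 * y ij.1

/-- the restriction of `F` to the line through `x` and `y` is the product of powers of two linear
forms: the line meets `F = 0` in at most two points -/
def TwoPt (d : ℕ) (F : MvPolynomial (Fin (n + 1)) L) (x y : Fin (n + 1) → L) : Prop :=
  ∃ (a b : ℕ) (l m : Fin 2 → L), a + b + 2 = d ∧ ∀ s t : L,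
    MvPolynomial.eval (lpt x y s t) F =
      (l 0 * s + l 1 * t) ^ (a + 1) * (m 0 * s + m 1 * t) ^ (b + 1)

end Line

end Pool.Agent.H30.VGH
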