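import Pool.Agent.H22.VGH.Ge
import Pool.Agent.H27.LV.Curve

/-! # MP_70ba79_ag, board `vgh_modules`: local heights, restriction of a form to a line -/

set_option autoImplicit false

namespace Pool.Agent.H30.VGH

open SC Pool.Agent.H27.LV Pool.Agent.H22.VGH

section Lh

open Classical in
lemma lh_def {k K : Type} [Field k] [Field K] [Algebra k K] {ι : Type} [Fintype ι]
    (v : DV k K) (z : ι → K) : lh v z = if h : (Finset.univ.filter fun i => z i ≠ 0).Nonempty then
    (Finset.univ.filter fun i => z i ≠ 0).sup' h fun i => -(v.ord (z i)) else 0 := rfl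

variable {k K : Type} [Field k] [Field K] [Algebra k K] {ι : Type} [Fintype ι]

lemma neg_ord_le_lh (v : DV k K) (z : ι → K) (i : ι) (h : z i ≠ 0) : -(v.ord (z i)) ≤ lh v z := by
  classical
  rw [lh_def]
  have hi : i ∈ Finset.univ.filter fun i => z i ≠ 0 := by simpa using h
  rw [dif_pos ⟨i, hi⟩]
  exact Finset.le_sup' (fun i => -(v.ord (z i))) hi

lemma ge_lh (v : DV k K) (z : ι → K) (i : ι) : ge v (-(lh v z)) (z i) := by
  by_cases h : z i = 0
  · exact Or.inl h
  · have := neg_ord_le_lh v z i h
    exact Or.inr (by omega)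

lemma lh_attained (v : DV k K) {z : ι → K} (hz : z ≠ 0) : ∃ i, z i ≠ 0 ∧ lh v z = -(v.ord (z i)) := by
  classical
  have h : (Finset.univ.filter fun i => z i ≠ 0).Nonempty := by
    by_contra hcon
    rw [Finset.not_nonempty_iff_eq_empty, Finset.filter_eq_empty_iff] at hcon
    apply hz
    funext i
    have := hcon (Finset.mem_univ i)
    simpa using this
  rw [lh_def, dif_pos h]
  obtain ⟨i, hi, h1⟩ := Finset.exists_mem_eq_sup' h fun i => -(v.ord (z i))
  exact ⟨i, by simpa using hi, h1⟩

lemma lh_le (v : DV k K) {z : ι → K} (hz : z ≠ 0) {t : ℤ} (h : ∀ i, ge v (-t) (z i)) :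
    lh v z ≤ t := by
  obtain ⟨i, hi, h1⟩ := lh_attained v hz
  have := (h i).resolve_left hi
  omega

lemma lh_smul (v : DV k K) {z : ι → K} (hz : z ≠ 0) {c : K} (hc : c ≠ 0) :
    lh v (fun i => c * z i) = lh v z - v.ord c := by
  have hz' : (fun i => c * z i) ≠ 0 := by
    intro h
    apply hz
    funext i
    have := congrFun h i
    simpa [hc] using this
  apply le_antisymm
  · refine lh_le v hz' fun i => ?_
    have := gmul (gord (v := v) (x := c)) (ge_lh v z i)
    exact this.mono (by omega)
  · have h1 : lh v z ≤ lh v (fun i => c * z i) + v.ord c := by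
      refine lh_le v hz fun i => ?_
      have h2 := ge_lh v (fun i => c * z i) i
      by_cases h0 : z i = 0
      · exact Or.inl h0
      · have h3 := h2.resolve_left (mul_ne_zero hc h0)
        rw [v.ord_mul' hc h0] at h3
        exact Or.inr (by omega)
    omega

end Lh

section Fin

variable {k K : Type} [Field k] [IsAlgClosed k] [CharZero k] [Field K] [Algebra k K]
  [Algebra.EssFiniteType k K] {ι : Type} [Fintype ι]

lemma ord_finite (htr : Algebra.trdeg k K = 1) (z : K) :
    (Function.support fun v : DV k K => v.ord z).Finite := (pfm k K htr z).1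

lemma lh_finite (htr : Algebra.trdeg k K = 1) (z : ι → K) :
    (Function.support fun v : DV k K => lh v z).Finite := by
  refine (Set.finite_iUnion fun i => ord_finite htr (z i)).subset fun v hv => ?_
  by_cases hz : z = 0
  · exfalso
    apply hv
    change lh v z = 0
    classical
    rw [lh_def, dif_neg]
    rw [Finset.not_nonempty_iff_eq_empty, Finset.filter_eq_empty_iff]
    intro i _
    simp [hz]
  obtain ⟨i, hi, h1⟩ := lh_attained v hz
  rw [Set.mem_iUnion]
  refine ⟨i, fun h2 => hv ?_⟩
  change lh v z = 0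
  have h3 : v.ord (z i) = 0 := h2
  rw [h1, h3, neg_zero]

lemma pe_finite (htr : Algebra.trdeg k K = 1) (z : K) :
    (Function.support fun v : DV k K => pe v z).Finite := by
  refine (ord_finite htr z).subset fun v hv h2 => hv ?_
  have h3 : v.ord z = 0 := h2
  change pe v z = 0
  unfold pe
  rw [h3]
  rfl

end Fin

section Aff

variable {K : Type} [Field K] {n : ℕ}

open MvPolynomial in
/-- `F(a T + b)` -/
noncomputable def aff (F : MvPolynomial (Fin (n + 1)) K) (a b : Fin (n + 1) → K) :
    Polynomial K := aeval (fun l => Polynomial.C (a l) * Polynomial.X + Polynomial.C (b l)) F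

open MvPolynomial in
lemma aff_eval (F : MvPolynomial (Fin (n + 1)) K) (a b : Fin (n + 1) → K) (τ : K) :
    (aff F a b).eval τ = eval (fun l => a l * τ + b l) F := by
  unfold aff
  have h1 : ∀ w : Fin (n + 1) → K, eval w F = (aeval w : MvPolynomial (Fin (n + 1)) K →ₐ[K] K) F :=
    fun w => rfl
  have h2 : ∀ p : Polynomial K, p.eval τ = (Polynomial.aeval τ : Polynomial K →ₐ[K] K) p :=
    fun p => by rw [Polynomial.coe_aeval_eq_eval]
  rw [h1, h2, ← AlgHom.comp_apply]
  congr 1
  apply MvPolynomial.algHom_ext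
  intro i
  simp only [AlgHom.comp_apply, aeval_X, map_add, map_mul, Polynomial.aeval_C, Polynomial.aeval_X,
    Algebra.algebraMap_self, RingHom.id_apply]

open MvPolynomial in
lemma aff_sum (F : MvPolynomial (Fin (n + 1)) K) (a b : Fin (n + 1) → K) :
    aff F a b = ∑ m ∈ F.support, Polynomial.C (coeff m F) *
      ∏ l : Fin (n + 1), (Polynomial.C (a l) * Polynomial.X + Polynomial.C (b l)) ^ m l := by
  unfold aff
  conv_lhs => rw [F.as_sum, map_sum]
  refine Finset.sum_congr rfl fun m _ => ?_
  rw [aeval_monomial, Finsupp.prod_fintype _ _ (fun i => by rw [pow_zero])]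
  rfl

lemma lin_natDegree (a b : K) :
    (Polynomial.C a * Polynomial.X + Polynomial.C b).natDegree ≤ 1 :=
  Polynomial.natDegree_linear_le

lemma prod_coeff (s : Finset (Fin (n + 1))) (a b : Fin (n + 1) → K) (m : Fin (n + 1) → ℕ) :
    (∏ l ∈ s, (Polynomial.C (a l) * Polynomial.X + Polynomial.C (b l)) ^ m l).natDegree ≤
      ∑ l ∈ s, m l ∧
    (∏ l ∈ s, (Polynomial.C (a l) * Polynomial.X + Polynomial.C (b l)) ^ m l).coeff
      (∑ l ∈ s, m l) = ∏ l ∈ s, a l ^ m l := by
  classical
  induction s using Finset.induction_on with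
  | empty => simp
  | insert i s hi ih =>
    have h1 : ((Polynomial.C (a i) * Polynomial.X + Polynomial.C (b i)) ^ m i).natDegree ≤ m i := by
      refine Polynomial.natDegree_pow_le.trans ?_
      have := lin_natDegree (a i) (b i)
      calc m i * (Polynomial.C (a i) * Polynomial.X + Polynomial.C (b i)).natDegree ≤ m i * 1 :=
            Nat.mul_le_mul_left _ this
        _ = m i := mul_one _
    rw [Finset.prod_insert hi, Finset.sum_insert hi, Finset.prod_insert hi]
    constructor
    · exact Polynomial.natDegree_mul_le.trans (Nat.add_le_add h1 ih.1)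
    · rw [Polynomial.coeff_mul_add_eq_of_natDegree_le h1 ih.1, ih.2]
      congr 1
      have h2 := Polynomial.coeff_pow_of_natDegree_le (m := m i) (lin_natDegree (a i) (b i))
      rw [mul_one] at h2
      rw [h2]
      simp

open MvPolynomial in
lemma aff_natDegree_le {d : ℕ} {F : MvPolynomial (Fin (n + 1)) K} (hF : F.IsHomogeneous d)
    (a b : Fin (n + 1) → K) : (aff F a b).natDegree ≤ d := by
  rw [aff_sum]
  refine Polynomial.natDegree_sum_le_of_forall_le _ _ fun m hm => ?_
  refine (Polynomial.natDegree_C_mul_le _ _).trans ?_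
  refine (prod_coeff Finset.univ a b m).1.trans ?_
  have h1 : m.degree = d := by
    rw [Finsupp.degree_eq_weight_one]
    exact hF (mem_support_iff.1 hm)
  rw [← h1, Finsupp.degree_eq_sum]

open MvPolynomial in
lemma aff_coeff {d : ℕ} {F : MvPolynomial (Fin (n + 1)) K} (hF : F.IsHomogeneous d)
    (a b : Fin (n + 1) → K) : (aff F a b).coeff d = eval a F := by
  rw [aff_sum, Polynomial.finsetSum_coeff, eval_eq']
  refine Finset.sum_congr rfl fun m hm => ?_
  have h1 : m.degree = d := by
    rw [Finsupp.degree_eq_weight_one]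
    exact hF (mem_support_iff.1 hm)
  have h2 : ∑ l, m l = d := by rw [← h1, Finsupp.degree_eq_sum]
  rw [Polynomial.coeff_C_mul, ← h2, (prod_coeff Finset.univ a b m).2]

open MvPolynomial in
lemma eval_smul_homog {N : ℕ} {φ : MvPolynomial (Fin (n + 1)) K} (hφ : φ.IsHomogeneous N) (c : K)
    (x : Fin (n + 1) → K) : eval (fun i => c * x i) φ = c ^ N * eval x φ := by
  rw [eval_eq', eval_eq', Finset.mul_sum]
  refine Finset.sum_congr rfl fun m hm => ?_
  have h1 : m.degree = N := by
    rw [Finsupp.degree_eq_weight_one]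
    exact hφ (mem_support_iff.1 hm)
  have h2 : ∑ l, m l = N := by rw [← h1, Finsupp.degree_eq_sum]
  simp only [mul_pow]
  rw [Finset.prod_mul_distrib, Finset.prod_pow_eq_pow_sum, h2]
  ring

end Aff

section Bound

variable {k K : Type} [Field k] [Field K] [Algebra k K] {n : ℕ}

lemma prod_Cge (v : DV k K) (s : Finset (Fin (n + 1))) (a b : Fin (n + 1) → K)
    (m : Fin (n + 1) → ℕ) {t : ℤ} (ha : ∀ l, ge v (-t) (a l)) (hb : ∀ l, ge v (-t) (b l)) :
    Cge v (-((∑ l ∈ s, m l : ℕ) * t))
      (∏ l ∈ s, (Polynomial.C (a l) * Polynomial.X + Polynomial.C (b l)) ^ m l) := by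
  classical
  induction s using Finset.induction_on with
  | empty =>
    simp only [Finset.sum_empty, Finset.prod_empty, Nat.cast_zero, zero_mul, neg_zero]
    exact cone
  | insert i s hi ih =>
    rw [Finset.prod_insert hi, Finset.sum_insert hi]
    have h0 : Cge v (-t) (Polynomial.C (a i) * Polynomial.X + Polynomial.C (b i)) := by
      refine cadd ?_ (cC (hb i))
      intro j
      rw [Polynomial.coeff_C_mul, Polynomial.coeff_X]
      split_ifs
      · rw [mul_one]; exact ha i
      · rw [mul_zero]; exact gzero _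
    have h1 := cmul (cpow h0 (m i)) ih
    refine cmono h1 ?_
    push_cast
    linarith

open MvPolynomial in
lemma aff_Cge (v : DV k K) {d : ℕ} {F : MvPolynomial (Fin (n + 1)) k} (hF : F.IsHomogeneous d)
    (a b : Fin (n + 1) → K) {t : ℤ} (ha : ∀ l, ge v (-t) (a l)) (hb : ∀ l, ge v (-t) (b l)) :
    Cge v (-(d * t)) (aff (MvPolynomial.map (algebraMap k K) F) a b) := by
  rw [aff_sum]
  intro i
  rw [Polynomial.finsetSum_coeff]
  refine gsum _ _ _ fun m hm => ?_
  have hm0 : coeff m F ≠ 0 := by
    intro h
    rw [mem_support_iff, coeff_map, h, map_zero] at hm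
    exact hm rfl
  have h1 : m.degree = d := by
    rw [Finsupp.degree_eq_weight_one]
    exact hF hm0
  have h2 : ∑ l, m l = d := by rw [← h1, Finsupp.degree_eq_sum]
  rw [Polynomial.coeff_C_mul, coeff_map]
  have h3 := prod_Cge v Finset.univ a b m ha hb i
  rw [h2] at h3
  have h4 := gmul (gconst (v := v) (coeff m F)) h3
  rw [zero_add] at h4
  exact h4

end Bound

end Pool.Agent.H30.VGH
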