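import Pool.Agent.H30.VGH.Targets
import Pool.Agent.H27.LV.Curve

/-! # MP_70ba79_ag, board `vgh_modules`, row CDP: the derivation of the coefficients -/

set_option autoImplicit false

namespace Pool.Agent.H30.VGH

open SC Pool.Agent.H27.LV Polynomial

section

variable {k K : Type} [Field k] [Field K] [Algebra k K] (D : Derivation k K K)

lemma cD_coeff (p : K[X]) (i : ℕ) : (cD D p).coeff i = D (p.coeff i) := by
  unfold cD
  rw [Polynomial.sum_def, finsetSum_coeff]
  simp only [coeff_monomial]
  rw [Finset.sum_ite_eq']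
  split_ifs with h
  · rfl
  · rw [notMem_support_iff.1 h, map_zero]

lemma cD_add (p q : K[X]) : cD D (p + q) = cD D p + cD D q := by
  ext i
  rw [coeff_add, cD_coeff, cD_coeff, cD_coeff, coeff_add, map_add]

lemma cD_mul (p q : K[X]) : cD D (p * q) = cD D p * q + p * cD D q := by
  ext i
  rw [coeff_add, cD_coeff, coeff_mul, coeff_mul, coeff_mul, map_sum, ← Finset.sum_add_distrib]
  refine Finset.sum_congr rfl fun x _ => ?_
  rw [cD_coeff, cD_coeff, D.leibniz, smul_eq_mul, smul_eq_mul]
  ring

lemma cD_monomial (i : ℕ) (a : K) : cD D (monomial i a) = monomial i (D a) := by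
  ext j
  rw [cD_coeff, coeff_monomial, coeff_monomial]
  split_ifs
  · rfl
  · rw [map_zero]

lemma cD_derivative (p : K[X]) : cD D (derivative p) = derivative (cD D p) := by
  ext i
  rw [cD_coeff, coeff_derivative, coeff_derivative, cD_coeff, D.leibniz, smul_eq_mul, smul_eq_mul]
  have : D ((i : K) + 1) = 0 := by
    rw [map_add, D.map_natCast, D.map_one_eq_zero, add_zero]
  rw [this, mul_zero, zero_add]
  ring

lemma D_eval (p : K[X]) (τ : K) :
    D (p.eval τ) = (cD D p).eval τ + (derivative p).eval τ * D τ := by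
  induction p using Polynomial.induction_on' with
  | add p q hp hq =>
    rw [eval_add, map_add, hp, hq, cD_add, eval_add, derivative_add, eval_add]
    ring
  | monomial n a =>
    rw [eval_monomial, cD_monomial, eval_monomial, D.leibniz, D.leibniz_pow, derivative_monomial,
      eval_monomial]
    simp only [smul_eq_mul, nsmul_eq_mul]
    ring

lemma cD_Cge {v : DV k K} {δ a : ℤ} {p : K[X]} (hD : DOrd v D δ) (ha : 0 ≤ a)
    (hp : Cge v (-a) p) : Cge v (δ - 2 * a) (cD D p) := by
  intro i
  rw [cD_coeff]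
  by_cases h0 : p.coeff i = 0
  · rw [h0, map_zero]
    exact Or.inl rfl
  rcases le_or_gt 0 (v.ord (p.coeff i)) with h1 | h1
  · exact (hD.1 _ h1).mono (by omega)
  · have h2 : -a ≤ v.ord (p.coeff i) := (hp i).resolve_left h0
    exact (hD.2 _ h0).mono (by omega)

end

theorem pf_CDP : T_CDP := fun _ _ _ _ _ D => ⟨cD_coeff D, cD_add D, cD_mul D, cD_derivative D,
  D_eval D, fun _ _ _ _ hD ha hp => cD_Cge D hD ha hp⟩

end Pool.Agent.H30.VGH
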