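import Pool.Agent.H30.VGH.LHA
import Pool.Agent.H30.VGH.Targets2
import Pool.Agent.H17.VG.TT
import Pool.Agent.H17.VG.TargetsE
import Pool.Agent.H17.VG.TargetsX

/-! # MP_70ba79_ag: glue between the boards `vgh_modules` and `vyc_modules` -/

set_option autoImplicit false

namespace Pool.Agent.H30.VGH

open SC Pool.Agent.H27.LV Pool.Agent.H22.VGH Pool.Agent.H17.VG

section Heights

variable {k K : Type} [Field k] [Field K] [Algebra k K] {ι : Type} [Fintype ι]

lemma lh_eq_poleOrder (v : DV k K) (z : ι → K) (p : ι) (hp : z p = 1) :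
    lh v z = poleOrder v z := by
  have hz : z ≠ 0 := by
    rintro rfl
    exact one_ne_zero hp.symm
  have h0 : 0 ≤ lh v z := by
    have h1 := neg_ord_le_lh v z p (by rw [hp]; exact one_ne_zero)
    rw [hp, v.ord_one] at h1
    omega
  apply le_antisymm
  · refine lh_le v hz fun i => ?_
    by_cases hi : z i = 0
    · exact Or.inl hi
    right
    have h1 : (-(v.ord (z i))).toNat ≤ poleOrder v z := by
      unfold poleOrder
      exact Finset.le_sup (f := fun i => (-(v.ord (z i))).toNat) (Finset.mem_univ i)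
    omega
  · unfold poleOrder
    have h1 : (Finset.univ.sup fun i => (-(v.ord (z i))).toNat) ≤ (lh v z).toNat := by
      refine Finset.sup_le fun i _ => ?_
      by_cases hi : z i = 0
      · rw [hi, v.ord_zero]
        simp
      · have := neg_ord_le_lh v z i hi
        omega
    omega

lemma lh_div (v : DV k K) {z : ι → K} (hz : z ≠ 0) {c : K} (hc : c ≠ 0) :
    lh v (fun i => z i / c) = lh v z + v.ord c := by
  have h1 := lh_smul v hz (inv_ne_zero hc)
  rw [v.ord_inv] at h1
  have h2 : (fun i => z i / c) = fun i => c⁻¹ * z i := by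
    funext i
    rw [div_eq_mul_inv, mul_comm]
  rw [h2, h1]
  omega

end Heights

section Glob

variable {k K : Type} [Field k] [IsAlgClosed k] [CharZero k] [Field K] [Algebra k K]
  [Algebra.EssFiniteType k K] {ι : Type} [Fintype ι]

lemma hgt_eq_deg (htr : Algebra.trdeg k K = 1) (z : ι → K) (p : ι) (hp : z p = 1) :
    hgt k z = deg k z := by
  unfold hgt deg
  have h1 : (Function.support fun v : DV k K => poleOrder v z).Finite := pfi k K htr ι z
  have h2 := (Nat.castAddMonoidHom ℤ).map_finsum h1
  change _ = (Nat.castAddMonoidHom ℤ) (∑ᶠ v : DV k K, poleOrder v z)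
  rw [h2]
  refine finsum_congr fun v => ?_
  exact lh_eq_poleOrder v z p hp

lemma hgt_div (htr : Algebra.trdeg k K = 1) {z : ι → K} (hz : z ≠ 0) {c : K} (hc : c ≠ 0) :
    hgt k (fun i => z i / c) = hgt k z := by
  unfold hgt
  have h1 : (fun v : DV k K => lh v fun i => z i / c) = fun v => lh v z + v.ord c := by
    funext v
    exact lh_div v hz hc
  rw [h1, finsum_add_distrib (lh_finite htr z) (ord_finite htr c), (pfm k K htr c).2, add_zero]

end Glob

section Ind

variable {K : Type} [Field K] {n : ℕ}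

lemma plu_ne_zero_of_indep {x y : Fin (n + 1) → K} (p : Fin (n + 1)) (hp : x p = 1)
    (h : Indep x y) : ∃ i j, x i * y j - x j * y i ≠ 0 := by
  by_contra hcon
  push Not at hcon
  unfold Indep at h
  rw [LinearIndependent.pair_iff] at h
  have h1 := h (y p) (-1) (by
    funext i
    have h2 := hcon i p
    rw [hp] at h2
    simp only [Pi.add_apply, Pi.smul_apply, smul_eq_mul, Pi.zero_apply]
    linear_combination h2)
  exact one_ne_zero (neg_eq_zero.1 h1.2)

open MvPolynomial in
lemma twoRoots_of_small {d : ℕ} {F : MvPolynomial (Fin (n + 1)) K} (hF : F.IsHomogeneous d)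
    (hd : d < 2) (x y : Fin (n + 1) → K) (hx : eval x F ≠ 0) : TwoRoots d F x y := by
  have hres : res x y F = aff F y x := by
    unfold res aff
    congr 2
    funext i
    ring
  have h1 : (res x y F).natDegree ≤ d := by
    rw [hres]
    exact aff_natDegree_le hF y x
  have h0 : (res x y F).coeff 0 = eval x F := by
    rw [Polynomial.coeff_zero_eq_eval_zero, hres, aff_eval]
    congr 2
    funext i
    ring
  have h2 : res x y F = Polynomial.C (eval x F) + Polynomial.C ((res x y F).coeff 1) *
      Polynomial.X := by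
    conv_lhs => rw [Polynomial.eq_X_add_C_of_natDegree_le_one (h1.trans (by omega))]
    rw [h0]
    ring
  obtain ⟨α, hα⟩ : ∃ α, α = (res x y F).coeff 1 / eval x F := ⟨_, rfl⟩
  have h3 : res x y F = Polynomial.C (eval x F) * (1 + Polynomial.C α * Polynomial.X) := by
    rw [h2, mul_add, mul_one, ← mul_assoc, ← Polynomial.C_mul, hα, mul_div_cancel₀ _ hx]
  interval_cases d
  · have h4 : (res x y F).coeff 1 = 0 := Polynomial.coeff_eq_zero_of_natDegree_lt (by omega)
    refine ⟨0, 0, 0, 0, rfl, ?_⟩
    rw [h2, h4]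
    simp
  · refine ⟨algebraMap K (AlgebraicClosure K) α, 0, 1, 0, rfl, ?_⟩
    rw [h3]
    simp

end Ind

theorem gle (hLIN : T_LIN) : T_E := by
  intro n d
  refine ⟨7 * d ^ 2 + 3 * d + 2, ?_⟩
  intro k K _ _ _ _ _ _ htr D hD F hF x y p a b hp hxy hab hFx hT S hS hχ
  have hFh : (up K F).IsHomogeneous d := hF.map _
  have haev : MvPolynomial.aeval x F = MvPolynomial.eval x (up K F) := by
    unfold up
    rw [MvPolynomial.eval_map, MvPolynomial.aeval_def]
  have hd : 2 ≤ d := by
    by_contra hcon
    exact hT (twoRoots_of_small hFh (by omega) x y hFx)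
  have hplu : plu x y ≠ 0 := by
    intro h
    have h1 := congrFun h (a, b)
    exact hab h1
  have hmap : MvPolynomial.map (algebraMap K (AlgebraicClosure K)) (up K F) =
      MvPolynomial.map (algebraMap k (AlgebraicClosure K)) F := by
    unfold up
    rw [MvPolynomial.map_map, ← IsScalarTower.algebraMap_eq]
  have h1 := hLIN k K htr D hD S n d F x y hd hF hplu (fun h => hT (by
    refine Pool.Agent.H17.VG.TT.twoRoots_of_twoPt x y hFx ?_
    rw [hmap]
    exact h)) (by rw [haev]; exact hFx) (fun v hv => by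
      rw [haev, hS v hv, lh_eq_poleOrder v x p hp])
  rw [hgt_eq_deg htr x p hp, max_eq_right hχ] at h1
  have h2 : hgt k (plu x y) = hln k x y a b := by
    unfold hln
    rw [← hgt_div htr hplu hab]
    exact hgt_eq_deg htr (fun ij : Fin (n + 1) × Fin (n + 1) => plu x y ij /
      (x a * y b - x b * y a)) (a, b) (div_self hab)
  rw [h2] at h1
  refine h1.trans ?_
  have h3 : (0 : ℤ) ≤ hln k x y a b := Int.natCast_nonneg _
  push_cast
  nlinarith [mul_nonneg (show (0 : ℤ) ≤ 7 * (d : ℤ) ^ 2 + 3 * d + 1 by positivity) hχ]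

theorem glx (hXFN : T_XFN) : T_X := by
  intro k _ _ n d c hd hc
  have hcoef : ∀ M : Mon (n + 1) d, MvPolynomial.coeff (fs M.1) (frm c) = c M := by
    intro M
    have h2 := frm_coeff (frm_homog c)
    have h3 : (fun f : Mon (n + 1) d => MvPolynomial.coeff (fs f.1) (frm c)) - c = 0 := by
      refine frm_zero ?_
      have h4 : frm ((fun f : Mon (n + 1) d => MvPolynomial.coeff (fs f.1) (frm c)) - c) =
          frm (fun f : Mon (n + 1) d => MvPolynomial.coeff (fs f.1) (frm c)) - frm c := by
        unfold frm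
        rw [← Finset.sum_sub_distrib]
        refine Finset.sum_congr rfl fun f _ => ?_
        rw [Pi.sub_apply, MvPolynomial.C_sub, sub_mul]
      rw [h4, h2, sub_self]
    exact sub_eq_zero.1 (congrFun h3 M)
  obtain ⟨N, Φ, hΦ0, hΦh, hΦ⟩ := hXFN k n d (frm c) hd (frm_homog c) (by
    have h1 : (fun M : Mon (n + 1) d => MvPolynomial.coeff (fs M.1) (frm c)) = c := funext hcoef
    rw [h1]
    exact hc)
  refine ⟨Φ, N, hΦ0, hΦh, ?_⟩
  intro K _ _ x y p hp hxy hT
  have hd2 : 2 ≤ d := by omega
  have hFh : (up K (frm c)).IsHomogeneous d := (frm_homog c).map _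
  have h1 := Pool.Agent.H17.VG.TT.twoPt_of_twoRoots hd2 hFh x y hT
  have hmap : ∀ G : MvPolynomial (Fin (n + 1)) k,
      MvPolynomial.map (algebraMap K (AlgebraicClosure K)) (up K G) =
      MvPolynomial.map (algebraMap k (AlgebraicClosure K)) G := by
    intro G
    unfold up
    rw [MvPolynomial.map_map, ← IsScalarTower.algebraMap_eq]
  rw [hmap] at h1
  obtain ⟨i, j, hij⟩ := plu_ne_zero_of_indep p hp hxy
  have h2 := hΦ (AlgebraicClosure K) _ _ (by
    intro h3
    have h4 := congrFun h3 (i, j)
    change algebraMap K (AlgebraicClosure K) (x i) * algebraMap K (AlgebraicClosure K) (y j) -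
      algebraMap K (AlgebraicClosure K) (x j) * algebraMap K (AlgebraicClosure K) (y i) = 0 at h4
    rw [← map_mul, ← map_mul, ← map_sub, map_eq_zero] at h4
    exact hij h4) h1
  have h3 := Pool.Agent.H17.VG.TT.up_eval (algebraMap K (AlgebraicClosure K)) x (up K Φ)
  rw [hmap, MvPolynomial.eval_map, ← MvPolynomial.aeval_def, h2, map_eq_zero] at h3
  exact h3

end Pool.Agent.H30.VGH
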