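import Pool.Agent.H30.VGH.LHA

/-! # MP_70ba79_ag, board `vgh_modules`, row LIN: points on a line of small height -/

set_option autoImplicit false

namespace Pool.Agent.H30.VGH

open SC Pool.Agent.H27.LV Pool.Agent.H22.VGH

/-- constants avoiding the zeros of a polynomial -/
lemma exists_const {k K : Type} [Field k] [IsAlgClosed k] [CharZero k] [Field K] [Algebra k K]
    (Q : Polynomial K) (hQ : Q ≠ 0) : ∃ c : k, Q.eval (algebraMap k K c) ≠ 0 := by
  by_contra hcon
  push Not at hcon
  apply hQ
  refine Polynomial.eq_zero_of_infinite_isRoot Q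
    ((Set.infinite_range_of_injective (algebraMap k K).injective).mono ?_)
  rintro _ ⟨c, rfl⟩
  exact hcon c

section Two

variable {K : Type} [Field K] [CharZero K] {n d : ℕ}

open MvPolynomial in
/-- a form whose restriction has at most two zeros -/
lemma twoPt_of_nr (hTWP : T_TWP) {F : MvPolynomial (Fin (n + 1)) K} (hF : F.IsHomogeneous d)
    (hd : 2 ≤ d) (a b : Fin (n + 1) → K) (ha : eval a F ≠ 0) (hnr : nr (aff F a b) < 3) :
    TwoPt d (MvPolynomial.map (algebraMap K (AlgebraicClosure K)) F)
      (fun i => algebraMap K (AlgebraicClosure K) (a i))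
      (fun i => algebraMap K (AlgebraicClosure K) (b i)) := by
  obtain ⟨Ω, hΩ⟩ : ∃ f : K →+* AlgebraicClosure K, f = algebraMap K (AlgebraicClosure K) :=
    ⟨_, rfl⟩
  have hdeg : (aff F a b).natDegree = d := by
    refine le_antisymm (aff_natDegree_le hF a b) (Polynomial.le_natDegree_of_ne_zero ?_)
    rw [aff_coeff hF]
    exact ha
  have hlc : (aff F a b).leadingCoeff = eval a F := by
    rw [Polynomial.leadingCoeff, hdeg, aff_coeff hF]
  obtain ⟨a0, b0, α, β, hab, hP⟩ := hTWP K (aff F a b) d hd hdeg hnr
  rw [hlc] at hP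
  obtain ⟨g, hg⟩ : ∃ g : AlgebraicClosure K, g ^ (a0 + 1) =
      algebraMap K (AlgebraicClosure K) (eval a F) :=
    IsAlgClosed.exists_pow_nat_eq _ (Nat.succ_pos a0)
  have hmap : ∀ T : AlgebraicClosure K, eval (fun l => algebraMap K (AlgebraicClosure K) (a l) * T +
      algebraMap K (AlgebraicClosure K) (b l))
      (MvPolynomial.map (algebraMap K (AlgebraicClosure K)) F) =
      algebraMap K (AlgebraicClosure K) (eval a F) * ((T - α) ^ (a0 + 1) * (T - β) ^ (b0 + 1)) := by
    intro T
    have h1 : (aff F a b).map (algebraMap K (AlgebraicClosure K)) =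
        aff (MvPolynomial.map (algebraMap K (AlgebraicClosure K)) F)
          (fun i => algebraMap K (AlgebraicClosure K) (a i))
          (fun i => algebraMap K (AlgebraicClosure K) (b i)) := by
      rw [aff_sum, aff_sum, Polynomial.map_sum]
      have hsup : (MvPolynomial.map (algebraMap K (AlgebraicClosure K)) F).support = F.support := by
        ext m
        rw [mem_support_iff, mem_support_iff, coeff_map]
        exact (map_ne_zero_iff _ (algebraMap K (AlgebraicClosure K)).injective)
      rw [hsup]
      refine Finset.sum_congr rfl fun m _ => ?_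
      rw [Polynomial.map_mul, Polynomial.map_C, Polynomial.map_prod, coeff_map]
      congr 1
      refine Finset.prod_congr rfl fun l _ => ?_
      rw [Polynomial.map_pow, Polynomial.map_add, Polynomial.map_mul, Polynomial.map_C,
        Polynomial.map_C, Polynomial.map_X]
    rw [← aff_eval, ← h1, hP]
    simp
  have hhom := hF.map (algebraMap K (AlgebraicClosure K))
  refine ⟨a0, b0, ![g, -(g * α)], ![1, -β], hab, fun s t => ?_⟩
  simp only [Matrix.cons_val_zero, Matrix.cons_val_one]
  have hgg : (g * s + -(g * α) * t) ^ (a0 + 1) * (1 * s + -β * t) ^ (b0 + 1) =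
      algebraMap K (AlgebraicClosure K) (eval a F) *
        ((s - α * t) ^ (a0 + 1) * (s - β * t) ^ (b0 + 1)) := by
    rw [← hg]
    have e1 : g * s + -(g * α) * t = g * (s - α * t) := by ring
    have e2 : 1 * s + -β * t = s - β * t := by ring
    rw [e1, e2, mul_pow]
    ring
  rw [hgg]
  by_cases ht : t = 0
  · have e3 : lpt (fun i => algebraMap K (AlgebraicClosure K) (a i))
        (fun i => algebraMap K (AlgebraicClosure K) (b i)) s t =
        fun i => s * algebraMap K (AlgebraicClosure K) (a i) := by
      funext i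
      simp only [lpt, ht, zero_mul, add_zero]
    rw [e3, eval_smul_homog hhom]
    have e4 : eval (fun i => algebraMap K (AlgebraicClosure K) (a i))
        (MvPolynomial.map (algebraMap K (AlgebraicClosure K)) F) =
        algebraMap K (AlgebraicClosure K) (eval a F) := by
      rw [eval_map, eval₂_comp]
      rfl
    rw [e4, ht, mul_zero, mul_zero, sub_zero, ← pow_add]
    have e5 : a0 + 1 + (b0 + 1) = d := by omega
    rw [e5]
    ring
  · have e3 : lpt (fun i => algebraMap K (AlgebraicClosure K) (a i))
        (fun i => algebraMap K (AlgebraicClosure K) (b i)) s t =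
        fun i => t * (algebraMap K (AlgebraicClosure K) (a i) * (s / t) +
          algebraMap K (AlgebraicClosure K) (b i)) := by
      funext i
      simp only [lpt]
      field_simp
    rw [e3, eval_smul_homog hhom, hmap]
    have e5 : d = a0 + 1 + (b0 + 1) := by omega
    have e6 : s - α * t = t * (s / t - α) := by field_simp
    have e7 : s - β * t = t * (s / t - β) := by field_simp
    rw [e6, e7, mul_pow, mul_pow, e5, pow_add]
    ring

end Two

theorem pf_LIN (hMM : T_MM) (hTWI : T_TWI) (hTWP : T_TWP) : T_LIN := by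
  intro k K _ _ _ _ _ _ htr D hD S n d F x y hd hF hplu hT hFx hS
  have hK0 : CharZero K := charZero_of_injective_algebraMap (algebraMap k K).injective
  obtain ⟨FK, hFK⟩ : ∃ FK, FK = MvPolynomial.map (algebraMap k K) F := ⟨_, rfl⟩
  have hFKh : FK.IsHomogeneous d := by rw [hFK]; exact hF.map _
  have haev : ∀ z : Fin (n + 1) → K, MvPolynomial.aeval z F = MvPolynomial.eval z FK := by
    intro z
    rw [hFK, MvPolynomial.eval_map, MvPolynomial.aeval_def]
  have hx0 : x ≠ 0 := by
    rintro rfl
    apply hplu
    funext ij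
    change (0 : K) * y ij.2 - 0 * y ij.1 = 0
    ring
  -- the two coordinates
  obtain ⟨i, j, hP0, hxi⟩ : ∃ i j, x i * y j - x j * y i ≠ 0 ∧ x i ≠ 0 := by
    obtain ⟨⟨i, j⟩, hij⟩ : ∃ ij, plu x y ij ≠ 0 := by
      by_contra hcon
      push Not at hcon
      exact hplu (funext hcon)
    change x i * y j - x j * y i ≠ 0 at hij
    by_cases h : x i = 0
    · refine ⟨j, i, fun h2 => hij (by linear_combination -h2), fun h2 => hij ?_⟩
      rw [h, h2]
      ring
    · exact ⟨i, j, hij, h⟩
  obtain ⟨P0, hP0d⟩ : ∃ P0, P0 = x i * y j - x j * y i := ⟨_, rfl⟩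
  rw [← hP0d] at hP0
  obtain ⟨A, hA⟩ : ∃ A : Fin (n + 1) → K, A = fun l => (x l * y j - x j * y l) / P0 := ⟨_, rfl⟩
  obtain ⟨B, hB⟩ : ∃ B : Fin (n + 1) → K, B = fun l => (x i * y l - x l * y i) / P0 := ⟨_, rfl⟩
  have hxAB : ∀ l, x l = x i * A l + x j * B l := by
    intro l
    rw [hA, hB]
    field_simp
    rw [hP0d]
    ring
  -- the constant c
  obtain ⟨c, hc1, hc2⟩ : ∃ c : k, MvPolynomial.eval (fun l => A l + algebraMap k K c * B l) FK ≠ 0 ∧
      x j - algebraMap k K c * x i ≠ 0 := by
    have hQ1 : aff FK B A ≠ 0 := by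
      intro h0
      have h1 := aff_eval FK B A (x j / x i)
      rw [h0, Polynomial.eval_zero] at h1
      apply hFx
      rw [haev]
      have h2 : x = fun l => x i * (B l * (x j / x i) + A l) := by
        funext l
        rw [hxAB l]
        field_simp
        ring
      rw [h2, eval_smul_homog hFKh, ← h1, mul_zero]
    have hQ2 : (Polynomial.C (x j) - Polynomial.C (x i) * Polynomial.X : Polynomial K) ≠ 0 := by
      intro h0
      have h1 := congrArg (fun p => Polynomial.coeff p 1) h0
      simp [Polynomial.coeff_C] at h1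
      exact hxi h1
    obtain ⟨c, hc⟩ := exists_const (k := k) _ (mul_ne_zero hQ1 hQ2)
    rw [Polynomial.eval_mul] at hc
    refine ⟨c, ?_, ?_⟩
    · have h1 := left_ne_zero_of_mul hc
      rw [aff_eval] at h1
      have h2 : (fun l => B l * algebraMap k K c + A l) = fun l => A l + algebraMap k K c * B l := by
        funext l
        ring
      rwa [h2] at h1
    · have h1 := right_ne_zero_of_mul hc
      simp only [Polynomial.eval_sub, Polynomial.eval_C, Polynomial.eval_mul,
        Polynomial.eval_X] at h1
      intro h2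
      apply h1
      linear_combination h2
  obtain ⟨cK, hcK⟩ : ∃ cK, cK = algebraMap k K c := ⟨_, rfl⟩
  rw [← hcK] at hc1 hc2
  obtain ⟨A', hA'⟩ : ∃ A' : Fin (n + 1) → K, A' = fun l => A l + cK * B l := ⟨_, rfl⟩
  rw [← hA'] at hc1
  obtain ⟨w, hw⟩ : ∃ w, w = x j - cK * x i := ⟨_, rfl⟩
  rw [← hw] at hc2
  have hxw : ∀ l, x l = x i * A' l + w * B l := by
    intro l
    rw [hxAB l, hA', hw]
    ring
  obtain ⟨τ, hτ⟩ : ∃ τ, τ = x i / w := ⟨_, rfl⟩
  obtain ⟨P, hP⟩ : ∃ P, P = aff FK A' B := ⟨_, rfl⟩
  have hPdeg : P.natDegree = d := by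
    rw [hP]
    refine le_antisymm (aff_natDegree_le hFKh _ _) (Polynomial.le_natDegree_of_ne_zero ?_)
    rw [aff_coeff hFKh]
    exact hc1
  have hPτ : MvPolynomial.eval x FK = w ^ d * P.eval τ := by
    rw [hP, aff_eval, ← eval_smul_homog hFKh]
    congr 2
    funext l
    rw [hxw l, hτ]
    field_simp
  have hFx' : MvPolynomial.eval x FK ≠ 0 := by rw [← haev]; exact hFx
  have hPτ0 : P.eval τ ≠ 0 := by
    intro h
    rw [h, mul_zero] at hPτ
    exact hFx' hPτ
  -- number of zeros
  have hnr : 3 ≤ nr P := by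
    by_contra hcon
    push Not at hcon
    apply hT
    have h1 := twoPt_of_nr hTWP hFKh hd A' B hc1 (by rw [← hP]; exact hcon)
    have h2 : MvPolynomial.map (algebraMap k (AlgebraicClosure K)) F =
        MvPolynomial.map (algebraMap K (AlgebraicClosure K)) FK := by
      rw [hFK, MvPolynomial.map_map, ← IsScalarTower.algebraMap_eq]
    rw [h2]
    obtain ⟨f, hf⟩ : ∃ f : K →+* AlgebraicClosure K, f = algebraMap K (AlgebraicClosure K) :=
      ⟨_, rfl⟩
    rw [← hf] at h1 ⊢
    have hfP0 : f P0 ≠ 0 := by rw [hf]; exact (map_ne_zero _).2 hP0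
    refine hTWI _ n d (MvPolynomial.map f FK) (fun l => f (A' l)) (fun l => f (B l)) _ _
      (f ((y j - cK * y i) / P0)) (f (-(w) / P0)) (f (-(y i) / P0)) (f (x i / P0)) ?_ ?_ ?_ h1
    · funext l
      simp only [lpt]
      rw [← map_mul, ← map_mul, ← map_add]
      congr 1
      rw [hA', hA, hB, hw]
      field_simp
      ring
    · funext l
      simp only [lpt]
      rw [← map_mul, ← map_mul, ← map_add]
      congr 1
      rw [hB]
      field_simp
      ring
    · rw [← map_mul, ← map_mul, ← map_sub]
      have h3 : (y j - cK * y i) / P0 * (x i / P0) - -(w) / P0 * (-(y i) / P0) = P0⁻¹ := by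
        rw [hw]
        field_simp
        rw [hP0d]
        ring
      rw [h3, map_inv₀]
      exact inv_ne_zero hfP0
  -- the local bounds
  obtain ⟨lam, hlam⟩ : ∃ lam : DV k K → ℤ, lam = fun v => v.ord P0 + lh v (plu x y) := ⟨_, rfl⟩
  have hplP0 : plu x y (i, j) = P0 := by rw [hP0d]; rfl
  have hlam0 : ∀ v, 0 ≤ lam v := by
    intro v
    have h1 := neg_ord_le_lh v (plu x y) (i, j) (by rw [hplP0]; exact hP0)
    rw [hplP0] at h1
    rw [hlam]
    change 0 ≤ v.ord P0 + lh v (plu x y)
    omega
  have hdivP : ∀ (v : DV k K) (z : K), ge v (-(lh v (plu x y))) z → ge v (-(lam v)) (z / P0) := by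
    intro v z hz
    have h1 := gmul hz (gord (v := v) (x := P0⁻¹))
    rw [← div_eq_mul_inv, v.ord_inv] at h1
    refine h1.mono ?_
    rw [hlam]
    change -(v.ord P0 + lh v (plu x y)) ≤ _
    omega
  have hAg : ∀ (v : DV k K) l, ge v (-(lam v)) (A l) := by
    intro v l
    rw [hA]
    exact hdivP v _ (ge_lh v (plu x y) (l, j))
  have hBg : ∀ (v : DV k K) l, ge v (-(lam v)) (B l) := by
    intro v l
    rw [hB]
    exact hdivP v _ (ge_lh v (plu x y) (i, l))
  have hA'g : ∀ (v : DV k K) l, ge v (-(lam v)) (A' l) := by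
    intro v l
    rw [hA']
    refine gadd (hAg v l) ?_
    have h1 := gmul (gconst (v := v) c) (hBg v l)
    rw [zero_add, ← hcK] at h1
    exact h1
  obtain ⟨a, ha⟩ : ∃ a : DV k K → ℕ, a = fun v => (d * lam v).toNat := ⟨_, rfl⟩
  have haZ : ∀ v, (a v : ℤ) = d * lam v := by
    intro v
    rw [ha]
    exact Int.toNat_of_nonneg (mul_nonneg (Int.natCast_nonneg _) (hlam0 v))
  have hlamfin : (Function.support lam).Finite := by
    refine ((ord_finite htr P0).union (lh_finite htr (plu x y))).subset fun v hv => ?_
    by_contra hcon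
    simp only [Set.mem_union, Function.mem_support, not_or, not_not] at hcon
    apply hv
    rw [hlam]
    change v.ord P0 + lh v (plu x y) = 0
    rw [hcon.1, hcon.2, add_zero]
  have hafin : a.support.Finite := by
    refine hlamfin.subset fun v hv h2 => hv ?_
    have h3 := haZ v
    rw [show lam v = 0 from h2, mul_zero] at h3
    exact_mod_cast h3
  have hord : ∀ v : DV k K, v.ord (MvPolynomial.eval x FK) = d * v.ord w + v.ord (P.eval τ) := by
    intro v
    rw [hPτ, v.ord_mul' (pow_ne_zero _ hc2) hPτ0, v.ord_pow]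
  have hordτ : ∀ v : DV k K, v.ord τ = v.ord (x i) - v.ord w := by
    intro v
    rw [hτ, v.ord_div hxi hc2]
  have hmain := hMM k K htr D hD S d P τ a hPdeg hnr hafin (fun v => by
      rw [haZ v, hP, hFK]
      exact aff_Cge v hF A' B (hA'g v) (hBg v)) hPτ0 (fun v hv => by
      have h1 := hS v hv
      rw [haev, hord] at h1
      have h2 : pe v τ ≤ lh v x + v.ord w := by
        unfold pe
        rw [hordτ]
        refine max_le ?_ ?_
        · have h3 : ge v (-(lh v x)) w := by
            rw [hw]
            refine gsub (ge_lh v x j) ?_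
            have h4 := gmul (gconst (v := v) c) (ge_lh v x i)
            rw [zero_add, ← hcK] at h4
            exact h4
          have h4 := h3.resolve_left hc2
          omega
        · have h3 := neg_ord_le_lh v x i hxi
          omega
      have h3 : (d : ℤ) * pe v τ ≤ d * (lh v x + v.ord w) :=
        mul_le_mul_of_nonneg_left h2 (Int.natCast_nonneg _)
      have h4 : (0 : ℤ) ≤ a v := Int.natCast_nonneg _
      linarith)
  -- the height of x
  have hlhx : ∀ v : DV k K, lh v x ≤ pe v τ - v.ord w + lam v := by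
    intro v
    refine lh_le v hx0 fun l => ?_
    rw [hxw l]
    have h1 : -(pe v τ - v.ord w) ≤ v.ord (x i) := by
      have := neg_ord_le_pe (v := v) τ
      rw [hordτ] at this
      omega
    have h2 : -(pe v τ - v.ord w) ≤ v.ord w := by
      have := pe_nonneg (v := v) τ
      omega
    refine gadd ?_ ?_
    · exact (gmul ((gord (v := v) (x := x i)).mono h1) (hA'g v l)).mono (by omega)
    · exact (gmul ((gord (v := v) (x := w)).mono h2) (hBg v l)).mono (by omega)
  have hsum1 : ∑ᶠ v : DV k K, (pe v τ - v.ord w + lam v) =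
      ∑ᶠ v : DV k K, pe v τ + ∑ᶠ v : DV k K, lam v := by
    have h1 : (Function.support fun v : DV k K => pe v τ - v.ord w).Finite := by
      refine ((pe_finite htr τ).union (ord_finite htr w)).subset fun v hv => ?_
      by_contra hcon
      simp only [Set.mem_union, Function.mem_support, not_or, not_not] at hcon
      apply hv
      change pe v τ - v.ord w = 0
      rw [hcon.1, hcon.2, sub_zero]
    rw [finsum_add_distrib h1 hlamfin, finsum_sub_distrib (pe_finite htr τ) (ord_finite htr w),
      (pfm k K htr w).2, sub_zero]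
  have hsum2 : ∑ᶠ v : DV k K, lam v = hgt k (plu x y) := by
    rw [hlam, finsum_add_distrib (ord_finite htr P0) (lh_finite htr (plu x y)),
      (pfm k K htr P0).2, zero_add]
    rfl
  have hsum3 : ∑ᶠ v : DV k K, (a v : ℤ) = d * hgt k (plu x y) := by
    rw [← hsum2, mul_finsum' _ _ hlamfin]
    exact finsum_congr haZ
  have hle : hgt k x ≤ ∑ᶠ v : DV k K, (pe v τ - v.ord w + lam v) := by
    have h1 : (Function.support fun v : DV k K => pe v τ - v.ord w + lam v).Finite := by
      refine ((pe_finite htr τ).union ((ord_finite htr w).union hlamfin)).subset fun v hv => ?_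
      by_contra hcon
      simp only [Set.mem_union, Function.mem_support, not_or, not_not] at hcon
      apply hv
      change pe v τ - v.ord w + lam v = 0
      rw [hcon.1, hcon.2.1, hcon.2.2]
      rfl
    exact finsum_le_finsum' (lh_finite htr x) h1 hlhx
  have hlam00 : 0 ≤ hgt k (plu x y) := by
    rw [← hsum2]
    exact finsum_nonneg hlam0
  rw [hsum3] at hmain
  rw [hsum1, hsum2] at hle
  nlinarith [hmain, hle]

end Pool.Agent.H30.VGH
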