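import Pool.Agent.H30.VGH.Targets
import Pool.Agent.H27.LV.Curve
import Pool.Agent.H70.LV.LDT

/-! # MP_70ba79_ag, board `vgh_modules`, row SYL: Cramer's rule for the Sylvester system -/

set_option autoImplicit false

namespace Pool.Agent.H30.VGH

open SC Pool.Agent.H27.LV Polynomial

section

variable {K : Type} [Field K]

/-- polynomial with the coefficients `c` -/
noncomputable def ofc {m : ℕ} (c : Fin m → K) : K[X] := ∑ j : Fin m, C (c j) * X ^ (j : ℕ)

lemma ofc_coeff {m : ℕ} (c : Fin m → K) (i : ℕ) :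
    (ofc c).coeff i = if h : i < m then c ⟨i, h⟩ else 0 := by
  unfold ofc
  rw [finsetSum_coeff]
  simp only [coeff_C_mul, coeff_X_pow]
  split_ifs with h
  · rw [Finset.sum_eq_single ⟨i, h⟩]
    · simp
    · intro j _ hj
      rw [if_neg, mul_zero]
      intro h2
      exact hj (Fin.ext h2.symm)
    · intro h2
      exact absurd (Finset.mem_univ _) h2
  · refine Finset.sum_eq_zero fun j _ => ?_
    rw [if_neg, mul_zero]
    have := j.2
    omega

lemma ofc_natDegree {m : ℕ} (c : Fin m → K) : (ofc c).natDegree ≤ m - 1 := by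
  rw [natDegree_le_iff_coeff_eq_zero]
  intro N hN
  rw [ofc_coeff, dif_neg (by omega)]

lemma ofc_eq_zero {m : ℕ} (c : Fin m → K) (h : ofc c = 0) : c = 0 := by
  funext j
  have h1 := ofc_coeff c j
  rw [h, coeff_zero, dif_pos j.2] at h1
  exact h1.symm

/-- the Sylvester matrix -/
noncomputable def sylM (r : ℕ) (p : K[X]) : Matrix (Fin (r - 1) ⊕ Fin r) (Fin (r - 1) ⊕ Fin r) K :=
  Matrix.of fun i c => match c with
    | Sum.inl j => (p * X ^ (j : ℕ)).coeff (finSumFinEquiv i : ℕ)
    | Sum.inr j => (derivative p * X ^ (j : ℕ)).coeff (finSumFinEquiv i : ℕ)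

lemma sylM_mulVec (r : ℕ) (p : K[X]) (c : Fin (r - 1) ⊕ Fin r → K) (i : Fin (r - 1) ⊕ Fin r) :
    (sylM r p).mulVec c i = (ofc (fun j => c (Sum.inl j)) * p +
      ofc (fun j => c (Sum.inr j)) * derivative p).coeff (finSumFinEquiv i : ℕ) := by
  unfold Matrix.mulVec dotProduct sylM
  rw [Fintype.sum_sum_type]
  simp only [Matrix.of_apply]
  unfold ofc
  rw [Finset.sum_mul, Finset.sum_mul, coeff_add, finsetSum_coeff, finsetSum_coeff]
  congr 1
  · refine Finset.sum_congr rfl fun j _ => ?_
    rw [mul_comm, ← coeff_C_mul]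
    congr 1
    ring
  · refine Finset.sum_congr rfl fun j _ => ?_
    rw [mul_comm, ← coeff_C_mul]
    congr 1
    ring

lemma syl_natDegree {r : ℕ} {p : K[X]} (hr : 2 ≤ r) (hp : p.natDegree = r)
    (c : Fin (r - 1) ⊕ Fin r → K) : (ofc (fun j => c (Sum.inl j)) * p +
      ofc (fun j => c (Sum.inr j)) * derivative p).natDegree ≤ 2 * r - 2 := by
  refine (natDegree_add_le _ _).trans (max_le ?_ ?_)
  · refine (natDegree_mul_le).trans ?_
    have := ofc_natDegree (fun j => c (Sum.inl j))
    omega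
  · refine (natDegree_mul_le).trans ?_
    have := ofc_natDegree (fun j => c (Sum.inr j))
    have h2 := natDegree_derivative_le p
    omega

/-- all the coefficients below `2 r - 1` are coefficients at some index -/
lemma coeff_of_index {r : ℕ} (hr : 2 ≤ r) (P Q : K[X]) (hP : P.natDegree ≤ 2 * r - 2)
    (hQ : Q.natDegree ≤ 2 * r - 2) (h : ∀ i : Fin (r - 1) ⊕ Fin r,
      P.coeff (finSumFinEquiv i : ℕ) = Q.coeff (finSumFinEquiv i : ℕ)) : P = Q := by
  ext i
  rcases Nat.lt_or_ge i (r - 1 + r) with hi | hi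
  · have h1 := h (finSumFinEquiv.symm ⟨i, hi⟩)
    rw [Equiv.apply_symm_apply] at h1
    exact h1
  · rw [coeff_eq_zero_of_natDegree_lt (by omega), coeff_eq_zero_of_natDegree_lt (by omega)]

lemma sylM_det {r : ℕ} {p : K[X]} (hr : 2 ≤ r) (hp : p.natDegree = r)
    (hc : IsCoprime p (derivative p)) : (sylM r p).det ≠ 0 := by
  intro h0
  obtain ⟨c, hc0, hc1⟩ := Matrix.exists_mulVec_eq_zero_iff.2 h0
  apply hc0
  have h1 : ofc (fun j => c (Sum.inl j)) * p +
      ofc (fun j => c (Sum.inr j)) * derivative p = 0 := by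
    refine coeff_of_index hr _ _ (syl_natDegree hr hp c) (by simp) fun i => ?_
    rw [← sylM_mulVec, hc1, coeff_zero]
    rfl
  have hp0 : p ≠ 0 := by
    rintro rfl
    rw [natDegree_zero] at hp
    omega
  have h2 : p ∣ ofc (fun j => c (Sum.inr j)) := by
    have h3 : p ∣ ofc (fun j => c (Sum.inr j)) * derivative p :=
      ⟨- ofc (fun j => c (Sum.inl j)), by linear_combination h1⟩
    exact hc.dvd_of_dvd_mul_right h3
  have h3 : ofc (fun j => c (Sum.inr j)) = 0 := by
    by_contra h4
    have h5 := natDegree_le_of_dvd h2 h4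
    have h6 := ofc_natDegree (fun j => c (Sum.inr j))
    omega
  have h4 : ofc (fun j => c (Sum.inl j)) = 0 := by
    rw [h3, zero_mul, add_zero] at h1
    exact (mul_eq_zero.1 h1).resolve_right hp0
  funext i
  rcases i with j | j
  · exact congrFun (ofc_eq_zero _ h4) j
  · exact congrFun (ofc_eq_zero _ h3) j

end

section

variable {k K : Type} [Field k] [Field K] [Algebra k K] (v : DV k K)

lemma Cge_derivative {m : ℤ} {p : K[X]} (hp : Cge v m p) : Cge v m (derivative p) := by
  intro i
  rw [coeff_derivative]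
  have h1 : ge v (m + 0) (p.coeff (i + 1) * (((i + 1 : ℕ) : K))) := by
    refine (hp (i + 1)).mul ?_
    exact Or.inr (v.ord_natCast_le _)
  rw [add_zero] at h1
  push_cast at h1
  exact h1

lemma sylM_ge {r : ℕ} {p : K[X]} {a : ℤ} (hp : Cge v (-a) p) (i c : Fin (r - 1) ⊕ Fin r) :
    ge v (-a) (sylM r p i c) := by
  unfold sylM
  rw [Matrix.of_apply]
  rcases c with j | j
  · simp only [coeff_mul_X_pow']
    split_ifs
    · exact hp _
    · exact ge_zero v _
  · simp only [coeff_mul_X_pow']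
    split_ifs
    · exact Cge_derivative v hp _
    · exact ge_zero v _

lemma det_ge {ι : Type} [Fintype ι] [DecidableEq ι] (M : Matrix ι ι K) {a : ℤ}
    (h : ∀ i j, ge v (-a) (M i j)) : ge v (-(Fintype.card ι * a)) M.det := by
  have h1 := Pool.Agent.H70.LV.wdt k K v ι M (fun _ => -a) (fun _ => 0) (fun i j => by
    rw [add_zero]; exact h i j)
  simp only [Finset.sum_const, Finset.card_univ, smul_zero, add_zero, nsmul_eq_mul,
    mul_neg] at h1
  exact h1

lemma adj_ge {ι : Type} [Fintype ι] [DecidableEq ι] (M : Matrix ι ι K) {a : ℤ} (ha : 0 ≤ a)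
    (h : ∀ i j, ge v (-a) (M i j)) (i j : ι) :
    ge v (-(Fintype.card ι * a)) (M.adjugate i j) := by
  rw [Matrix.adjugate_apply]
  refine det_ge v _ fun i' j' => ?_
  rw [Matrix.updateRow_apply]
  split_ifs with h1
  · by_cases h2 : j' = i
    · rw [h2, Pi.single_eq_same]
      exact (ge_one v).mono (by omega)
    · rw [Pi.single_eq_of_ne h2]
      exact ge_zero v _
  · exact h _ _

end

theorem pf_SYL : T_SYL := by
  intro k K _ _ _ r p hr hpm hp hc
  have hcard : Fintype.card (Fin (r - 1) ⊕ Fin r) = 2 * r - 1 := by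
    rw [Fintype.card_sum, Fintype.card_fin, Fintype.card_fin]
    omega
  have hle : ∀ a : ℤ, 0 ≤ a → -(2 * (r : ℤ) * a) ≤
      -((Fintype.card (Fin (r - 1) ⊕ Fin r) : ℕ) * a) := by
    intro a ha
    rw [hcard]
    have h1 : ((2 * r - 1 : ℕ) : ℤ) ≤ 2 * (r : ℤ) := by omega
    nlinarith
  refine ⟨(sylM r p).det, sylM_det hr hp hc, fun v a ha hpv => ?_, fun w hw => ?_⟩
  · exact (det_ge v _ (sylM_ge v hpv)).mono (hle a ha)
  · obtain ⟨c, hcd⟩ : ∃ c, c = (sylM r p).adjugate.mulVec
      (fun i => w.coeff (finSumFinEquiv i : ℕ)) := ⟨_, rfl⟩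
    have hbd : ∀ (v : DV k K) (a b : ℤ), 0 ≤ a → Cge v (-a) p → Cge v b w →
        ∀ i, ge v (b - 2 * r * a) (c i) := by
      intro v a b ha hpv hwv i
      rw [hcd]
      unfold Matrix.mulVec dotProduct
      refine ge_sum v _ _ _ fun j _ => ?_
      refine ((adj_ge v _ ha (sylM_ge v hpv) i j).mul (hwv _)).mono ?_
      have := hle a ha
      linarith
    refine ⟨ofc (fun j => c (Sum.inl j)), ofc (fun j => c (Sum.inr j)), ?_, ofc_natDegree _, ?_, ?_⟩
    · have := ofc_natDegree (fun j => c (Sum.inl j))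
      omega
    · refine coeff_of_index hr _ _ (syl_natDegree hr hp c)
        ((natDegree_C_mul_le _ _).trans hw) fun i => ?_
      rw [← sylM_mulVec, hcd, Matrix.mulVec_mulVec, Matrix.mul_adjugate, coeff_C_mul,
        Matrix.smul_mulVec, Matrix.one_mulVec]
      rfl
    · intro v a b ha hpv hwv
      constructor
      · intro i
        rw [ofc_coeff]
        split_ifs
        · exact hbd v a b ha hpv hwv _
        · exact ge_zero v _
      · intro i
        rw [ofc_coeff]
        split_ifs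
        · exact hbd v a b ha hpv hwv _
        · exact ge_zero v _

end Pool.Agent.H30.VGH
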