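import Pool.Agent.H30.VGH.Targets2

/-! # MP_70ba79_ag, board `vgh_modules`, row XFN: the exceptional set is not dense -/

set_option autoImplicit false

namespace Pool.Agent.H30.VGH

open SC Pool.Agent.H27.LV MvPolynomial

section Nat

variable {L : Type} [Field L] [CharZero L] {n : ℕ}

/-- an identity of binary forms which holds at all natural numbers holds everywhere -/
lemma nat_ext (F : MvPolynomial (Fin (n + 1)) L) (x y : Fin (n + 1) → L) (a b : ℕ)
    (l m : Fin 2 → L) (h : ∀ s t : ℕ, eval (lpt x y (s : L) (t : L)) F =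
      (l 0 * s + l 1 * t) ^ (a + 1) * (m 0 * s + m 1 * t) ^ (b + 1)) (s t : L) :
    eval (lpt x y s t) F = (l 0 * s + l 1 * t) ^ (a + 1) * (m 0 * s + m 1 * t) ^ (b + 1) := by
  let P : MvPolynomial (Fin 2) L := aeval (fun i => C (x i) * X 0 + C (y i) * X 1) F
  let Q : MvPolynomial (Fin 2) L := (C (l 0) * X 0 + C (l 1) * X 1) ^ (a + 1) *
    (C (m 0) * X 0 + C (m 1) * X 1) ^ (b + 1)
  have hP : ∀ z : Fin 2 → L, eval z P = eval (lpt x y (z 0) (z 1)) F := by
    intro z
    have h1 : eval z P = (aeval z : MvPolynomial (Fin 2) L →ₐ[L] L) P := rfl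
    have h2 : ∀ w : Fin (n + 1) → L, eval w F = (aeval w : MvPolynomial (Fin (n + 1)) L →ₐ[L] L) F :=
      fun w => rfl
    rw [h1, h2]
    change (aeval z : MvPolynomial (Fin 2) L →ₐ[L] L)
      ((aeval (fun i => C (x i) * X 0 + C (y i) * X 1) :
        MvPolynomial (Fin (n + 1)) L →ₐ[L] MvPolynomial (Fin 2) L) F) = _
    rw [← AlgHom.comp_apply]
    congr 1
    apply MvPolynomial.algHom_ext
    intro i
    simp only [AlgHom.comp_apply, aeval_X, map_add, map_mul, aeval_C, lpt]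
    simp only [Algebra.algebraMap_self, RingHom.id_apply]
    ring
  have hQ : ∀ z : Fin 2 → L, eval z Q = (l 0 * z 0 + l 1 * z 1) ^ (a + 1) *
      (m 0 * z 0 + m 1 * z 1) ^ (b + 1) := by
    intro z
    simp [Q]
  have hPQ : P = Q := by
    refine funext_set (fun _ => Set.range ((↑) : ℕ → L))
      (fun _ => Set.infinite_range_of_injective Nat.cast_injective) fun z hz => ?_
    obtain ⟨s', hs⟩ := hz 0 trivial
    obtain ⟨t', ht⟩ := hz 1 trivial
    rw [hP, hQ, ← hs, ← ht]
    exact h s' t'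
  have := hP ![s, t]
  rw [hPQ, hQ] at this
  simpa using this.symm

end Nat

section Eqs

variable (k : Type) [Field k] (n : ℕ)

/-- the unknowns: `y`, `l`, `m` and the inverse of a Plücker coordinate -/
abbrev Tv (n : ℕ) : Type := Fin (n + 1) ⊕ (Fin 2 ⊕ (Fin 2 ⊕ Unit))

variable {k n}

/-- the value of `F` at `s x + t y` minus the product of powers -/
noncomputable def eqn (F : MvPolynomial (Fin (n + 1)) k) (a b s t : ℕ) :
    MvPolynomial (Fin (n + 1) ⊕ Tv n) k :=
  aeval (fun i => (s : MvPolynomial (Fin (n + 1) ⊕ Tv n) k) * X (Sum.inl i) +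
    (t : MvPolynomial (Fin (n + 1) ⊕ Tv n) k) * X (Sum.inr (Sum.inl i))) F -
  (X (Sum.inr (Sum.inr (Sum.inl 0))) * (s : MvPolynomial (Fin (n + 1) ⊕ Tv n) k) +
    X (Sum.inr (Sum.inr (Sum.inl 1))) * (t : MvPolynomial (Fin (n + 1) ⊕ Tv n) k)) ^ (a + 1) *
  (X (Sum.inr (Sum.inr (Sum.inr (Sum.inl 0)))) * (s : MvPolynomial (Fin (n + 1) ⊕ Tv n) k) +
    X (Sum.inr (Sum.inr (Sum.inr (Sum.inl 1)))) *
      (t : MvPolynomial (Fin (n + 1) ⊕ Tv n) k)) ^ (b + 1)

/-- a Plücker coordinate is invertible -/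
noncomputable def eqp (k : Type) [Field k] (i j : Fin (n + 1)) :
    MvPolynomial (Fin (n + 1) ⊕ Tv n) k :=
  X (Sum.inr (Sum.inr (Sum.inr (Sum.inr ())))) * (X (Sum.inl i) * X (Sum.inr (Sum.inl j)) -
    X (Sum.inl j) * X (Sum.inr (Sum.inl i))) - 1

/-- all the equations -/
noncomputable def eqS (F : MvPolynomial (Fin (n + 1)) k) (a b : ℕ) (i j : Fin (n + 1)) :
    Set (MvPolynomial (Fin (n + 1) ⊕ Tv n) k) :=
  {f | f = eqp k i j ∨ ∃ s t : ℕ, f = eqn F a b s t}

variable {L : Type} [Field L] [Algebra k L]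

lemma aeval_eqn (F : MvPolynomial (Fin (n + 1)) k) (a b s t : ℕ) (x : Fin (n + 1) → L)
    (y : Tv n → L) :
    aeval (Sum.elim x y) (eqn F a b s t) =
      eval (lpt x (fun i => y (Sum.inl i)) (s : L) (t : L)) (MvPolynomial.map (algebraMap k L) F) -
      (y (Sum.inr (Sum.inl 0)) * s + y (Sum.inr (Sum.inl 1)) * t) ^ (a + 1) *
      (y (Sum.inr (Sum.inr (Sum.inl 0))) * s + y (Sum.inr (Sum.inr (Sum.inl 1))) * t) ^ (b + 1) := by
  unfold eqn
  rw [map_sub, map_mul, map_pow, map_pow]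
  simp only [map_add, map_mul, aeval_X, map_natCast, Sum.elim_inr]
  congr 1
  rw [eval_map, ← aeval_def]
  rw [← AlgHom.comp_apply]
  congr 1
  apply MvPolynomial.algHom_ext
  intro i
  simp only [AlgHom.comp_apply, aeval_X, map_add, map_mul, map_natCast, Sum.elim_inl, Sum.elim_inr,
    lpt]

lemma aeval_eqp (i j : Fin (n + 1)) (x : Fin (n + 1) → L) (y : Tv n → L) :
    aeval (Sum.elim x y) (eqp k i j) = y (Sum.inr (Sum.inr (Sum.inr ()))) *
      (x i * y (Sum.inl j) - x j * y (Sum.inl i)) - 1 := by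
  unfold eqp
  simp [map_sub, map_mul]

end Eqs

/-- one polynomial for given exponents and a given Plücker coordinate -/
lemma exists_Phi (hELI : T_ELI) (hXDM : T_XDM) (hXDR : T_XDR) (k : Type) [Field k] [CharZero k]
    (n d : ℕ) (F : MvPolynomial (Fin (n + 1)) k) (hd : n + 2 ≤ d) (hF : F.IsHomogeneous d)
    (hc : AlgebraicIndependent ℚ (fun M : Mon (n + 1) d => coeff (fs M.1) F)) (a b : ℕ)
    (hab : a + b + 2 = d) (i j : Fin (n + 1)) :
    ∃ Φ : MvPolynomial (Fin (n + 1)) k, Φ ≠ 0 ∧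
      rename Sum.inl Φ ∈ Ideal.span (eqS F a b i j) := by
  rcases hELI k (Fin (n + 1)) (Tv n) (eqS F a b i j) with h | ⟨Ω, _, _, x, y, hx, hI⟩
  · exact h
  exfalso
  have hΩ : CharZero Ω := charZero_of_injective_algebraMap (algebraMap k Ω).injective
  have h1 := hI (eqp k i j) (Or.inl rfl)
  rw [aeval_eqp] at h1
  have hplu : plu x (fun i => y (Sum.inl i)) ≠ 0 := by
    intro h2
    have h3 := congrFun h2 (i, j)
    change x i * y (Sum.inl j) - x j * y (Sum.inl i) = 0 at h3
    rw [h3, mul_zero, zero_sub] at h1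
    exact one_ne_zero (neg_eq_zero.1 h1)
  obtain ⟨l, hl⟩ : ∃ l : Fin 2 → Ω, l = fun r => y (Sum.inr (Sum.inl r)) := ⟨_, rfl⟩
  obtain ⟨m, hm⟩ : ∃ m : Fin 2 → Ω, m = fun r => y (Sum.inr (Sum.inr (Sum.inl r))) := ⟨_, rfl⟩
  have h2 : ∀ s t : Ω, eval (lpt x (fun i => y (Sum.inl i)) s t)
      (MvPolynomial.map (algebraMap k Ω) F) =
      (l 0 * s + l 1 * t) ^ (a + 1) * (m 0 * s + m 1 * t) ^ (b + 1) := by
    refine nat_ext _ _ _ a b l m fun s t => ?_
    have h3 := hI (eqn F a b s t) (Or.inr ⟨s, t, rfl⟩)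
    rw [aeval_eqn, sub_eq_zero] at h3
    rw [hl, hm]
    exact h3
  exact hXDM Ω n d (MvPolynomial.map (algebraMap k Ω) F) x (fun i => y (Sum.inl i)) a b l m
    (hF.map _) hplu hab hd h2
    (hXDR k Ω n d F x (fun i => y (Sum.inl i)) a b l m hF hc hx hab h2)

lemma aeval_smul_homog {k L : Type} [Field k] [Field L] [Algebra k L] {n N : ℕ}
    {φ : MvPolynomial (Fin (n + 1)) k} (hφ : φ.IsHomogeneous N) (c : L) (x : Fin (n + 1) → L) :
    aeval (fun i => c * x i) φ = c ^ N * aeval x φ := by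
  rw [φ.as_sum, map_sum, map_sum, Finset.mul_sum]
  refine Finset.sum_congr rfl fun m hm => ?_
  rw [aeval_monomial, aeval_monomial]
  have h1 : m.degree = N := by
    rw [Finsupp.degree_eq_weight_one]
    exact hφ (mem_support_iff.1 hm)
  rw [Finsupp.prod, Finsupp.prod]
  simp only [mul_pow]
  rw [Finset.prod_mul_distrib, Finset.prod_pow_eq_pow_sum]
  have h2 : ∑ i ∈ m.support, m i = N := by rw [← h1]; rfl
  rw [h2]
  ring

theorem pf_XFN (hELI : T_ELI) (hXDM : T_XDM) (hXDR : T_XDR) : T_XFN := by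
  intro k _ _ n d F hd hF hc
  choose! Φ hΦ0 hΦ using fun (q : ℕ × Fin (n + 1) × Fin (n + 1)) (hq : q.1 + (d - 2 - q.1) + 2 = d) =>
    exists_Phi hELI hXDM hXDR k n d F hd hF hc q.1 (d - 2 - q.1) hq q.2.1 q.2.2
  obtain ⟨Ψ, hΨ⟩ : ∃ Ψ, Ψ = ∏ a ∈ Finset.range (d - 1), ∏ i : Fin (n + 1), ∏ j : Fin (n + 1),
    Φ (a, i, j) := ⟨_, rfl⟩
  have hΨ0 : Ψ ≠ 0 := by
    rw [hΨ, Finset.prod_ne_zero_iff]
    intro a ha
    rw [Finset.mem_range] at ha
    rw [Finset.prod_ne_zero_iff]
    intro i _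
    rw [Finset.prod_ne_zero_iff]
    intro j _
    exact hΦ0 (a, i, j) (by change a + (d - 2 - a) + 2 = d; omega)
  have hbad : ∀ (L : Type) [Field L] [Algebra k L] (x y : Fin (n + 1) → L), plu x y ≠ 0 →
      TwoPt d (MvPolynomial.map (algebraMap k L) F) x y → aeval x Ψ = 0 := by
    intro L _ _ x y hxy ⟨a, b, l, m, hab, h⟩
    obtain ⟨⟨i, j⟩, hij⟩ : ∃ ij, plu x y ij ≠ 0 := by
      by_contra hcon
      push Not at hcon
      exact hxy (funext hcon)
    change x i * y j - x j * y i ≠ 0 at hij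
    have hb : b = d - 2 - a := by omega
    have hq : a + (d - 2 - a) + 2 = d := by omega
    have h1 := hΦ (a, i, j) hq
    let Y : Tv n → L := Sum.elim y (Sum.elim l (Sum.elim m fun _ => (x i * y j - x j * y i)⁻¹))
    have h2 : aeval (Sum.elim x Y) (rename Sum.inl (Φ (a, i, j)) :
        MvPolynomial (Fin (n + 1) ⊕ Tv n) k) = 0 := by
      have h3 : Ideal.span (eqS F a (d - 2 - a) i j) ≤
          RingHom.ker (aeval (Sum.elim x Y) : MvPolynomial (Fin (n + 1) ⊕ Tv n) k →ₐ[k] L) := by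
        rw [Ideal.span_le]
        rintro f (rfl | ⟨s, t, rfl⟩)
        · change aeval (Sum.elim x Y) (eqp k i j) = 0
          rw [aeval_eqp]
          change (x i * y j - x j * y i)⁻¹ * (x i * y j - x j * y i) - 1 = 0
          rw [inv_mul_cancel₀ hij, sub_self]
        · change aeval (Sum.elim x Y) (eqn F a (d - 2 - a) s t) = 0
          rw [aeval_eqn, sub_eq_zero, ← hb]
          exact h s t
      exact h3 h1
    rw [aeval_rename] at h2
    have h4 : (Sum.elim x Y) ∘ Sum.inl = x := by funext i; rfl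
    rw [h4] at h2
    rw [hΨ, map_prod]
    refine Finset.prod_eq_zero (i := a) (Finset.mem_range.2 (by omega)) ?_
    rw [map_prod]
    refine Finset.prod_eq_zero (Finset.mem_univ i) ?_
    rw [map_prod]
    exact Finset.prod_eq_zero (Finset.mem_univ j) h2
  obtain ⟨N, hN⟩ : ∃ N, homogeneousComponent N Ψ ≠ 0 := by
    by_contra hcon
    push Not at hcon
    apply hΨ0
    rw [← sum_homogeneousComponent Ψ]
    exact Finset.sum_eq_zero fun i _ => hcon i
  refine ⟨N, homogeneousComponent N Ψ, hN, homogeneousComponent_isHomogeneous N Ψ, ?_⟩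
  intro L _ _ x y hxy hT
  have hL : CharZero L := charZero_of_injective_algebraMap (algebraMap k L).injective
  let q : Polynomial L := ∑ i ∈ Finset.range (Ψ.totalDegree + 1),
    Polynomial.C (aeval x (homogeneousComponent i Ψ)) * Polynomial.X ^ i
  have hq0 : q = 0 := by
    have hinf : (Set.range fun r : ℕ => ((r + 1 : ℕ) : L)).Infinite :=
      Set.infinite_range_of_injective fun r s hrs => by
        have := Nat.cast_injective (R := L) hrs
        omega
    refine Polynomial.eq_zero_of_infinite_isRoot q (hinf.mono ?_)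
    rintro _ ⟨r, rfl⟩
    change q.eval (((r + 1 : ℕ) : L)) = 0
    obtain ⟨c, hcd⟩ : ∃ c : L, c = ((r + 1 : ℕ) : L) := ⟨_, rfl⟩
    have hc0 : c ≠ 0 := by rw [hcd]; exact Nat.cast_ne_zero.2 (Nat.succ_ne_zero r)
    rw [← hcd]
    have h1 : aeval (fun i => c * x i) Ψ = 0 := by
      refine hbad L (fun i => c * x i) y ?_ ?_
      · intro h2
        apply hxy
        funext ij
        have h3 := congrFun h2 ij
        change c * x ij.1 * y ij.2 - c * x ij.2 * y ij.1 = 0 at h3
        have h4 : c * (x ij.1 * y ij.2 - x ij.2 * y ij.1) = 0 := by rw [← h3]; ring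
        exact (mul_eq_zero.1 h4).resolve_left hc0
      · obtain ⟨a, b, l, m, hab, h⟩ := hT
        refine ⟨a, b, ![l 0 * c, l 1], ![m 0 * c, m 1], hab, fun s t => ?_⟩
        have h5 : lpt (fun i => c * x i) y s t = lpt x y (c * s) t := by
          funext i
          simp only [lpt]
          ring
        rw [h5, h]
        simp only [Matrix.cons_val_zero, Matrix.cons_val_one]
        ring
    rw [← sum_homogeneousComponent Ψ, map_sum] at h1
    rw [Polynomial.eval_finsetSum, ← h1]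
    refine Finset.sum_congr rfl fun i _ => ?_
    rw [aeval_smul_homog (homogeneousComponent_isHomogeneous i Ψ), Polynomial.eval_mul,
      Polynomial.eval_C, Polynomial.eval_pow, Polynomial.eval_X]
    ring
  have h2 : q.coeff N = aeval x (homogeneousComponent N Ψ) := by
    change (∑ i ∈ Finset.range (Ψ.totalDegree + 1),
      Polynomial.C (aeval x (homogeneousComponent i Ψ)) * Polynomial.X ^ i).coeff N = _
    rw [Polynomial.finsetSum_coeff, Finset.sum_eq_single N]
    · rw [Polynomial.coeff_C_mul_X_pow, if_pos rfl]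
    · intro i _ hi
      rw [Polynomial.coeff_C_mul_X_pow, if_neg hi.symm]
    · intro h3
      exfalso
      apply hN
      apply homogeneousComponent_eq_zero
      simp only [Finset.mem_range] at h3
      omega
  rw [← h2, hq0, Polynomial.coeff_zero]

end Pool.Agent.H30.VGH
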