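import Pool.Agent.H30.VGH.Defs

/-!
# MP_70ba79_ag: targets of the board `vgh_modules`, blocks (E) (moving Mason), (X) (exceptional
set), (V) (derivations)
-/

set_option autoImplicit false

namespace Pool.Agent.H30.VGH

open SC Pool.Agent.H27.LV Polynomial

/-! ### Block (E): moving Mason -/

/-- EVA: orders of values of polynomials -/
def T_EVA : Prop := ∀ (k K : Type) [Field k] [Field K] [Algebra k K] (v : DV k K) (m : ℤ) (N : ℕ)
  (p : K[X]) (τ : K), p.natDegree ≤ N → Cge v m p → ge v (m - N * pe v τ) (p.eval τ)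

/-- LED: at a pole of `τ` of large order the leading term dominates -/
def T_LED : Prop := ∀ (k K : Type) [Field k] [Field K] [Algebra k K] (v : DV k K) (m : ℤ)
  (p : K[X]) (τ : K), p ≠ 0 → Cge v m p → v.ord p.leadingCoeff - m < pe v τ →
  p.eval τ ≠ 0 ∧ v.ord (p.eval τ) = v.ord p.leadingCoeff - p.natDegree * pe v τ

/-- GAU: Gauss lemma for monic factors -/
def T_GAU : Prop := ∀ (k K : Type) [Field k] [Field K] [Algebra k K] (v : DV k K) (a : ℤ)
  (G p : K[X]), G.Monic → p.Monic → Cge v (-a) (G * p) → Cge v (-a) G ∧ Cge v (-a) p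

/-- SYL: Cramer's rule for the Sylvester system -/
def T_SYL : Prop := ∀ (k K : Type) [Field k] [Field K] [Algebra k K] (r : ℕ) (p : K[X]), 2 ≤ r →
  p.Monic → p.natDegree = r → IsCoprime p (derivative p) → ∃ ρ : K, ρ ≠ 0 ∧
  (∀ (v : DV k K) (a : ℤ), 0 ≤ a → Cge v (-a) p → ge v (-(2 * r * a)) ρ) ∧
  ∀ w : K[X], w.natDegree ≤ 2 * r - 2 → ∃ A B : K[X], A.natDegree ≤ r - 2 ∧ B.natDegree ≤ r - 1 ∧
    A * p + B * derivative p = C ρ * w ∧
    ∀ (v : DV k K) (a b : ℤ), 0 ≤ a → Cge v (-a) p → Cge v b w →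
      Cge v (b - 2 * r * a) A ∧ Cge v (b - 2 * r * a) B

/-- CDP: the derivation of the coefficients -/
def T_CDP : Prop := ∀ (k K : Type) [Field k] [Field K] [Algebra k K] (D : Derivation k K K),
  (∀ (p : K[X]) (i : ℕ), (cD D p).coeff i = D (p.coeff i)) ∧
  (∀ p q : K[X], cD D (p + q) = cD D p + cD D q) ∧
  (∀ p q : K[X], cD D (p * q) = cD D p * q + p * cD D q) ∧
  (∀ p : K[X], cD D (derivative p) = derivative (cD D p)) ∧
  (∀ (p : K[X]) (τ : K), D (p.eval τ) = (cD D p).eval τ + (derivative p).eval τ * D τ) ∧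
  ∀ (v : DV k K) (δ a : ℤ) (p : K[X]), DOrd v D δ → 0 ≤ a → Cge v (-a) p →
    Cge v (δ - 2 * a) (cD D p)

/-- MLO: the local lemma. `Ω = ρ τ' - B₁(τ)` -/
def T_MLO : Prop := ∀ (k K : Type) [Field k] [Field K] [Algebra k K] (v : DV k K)
  (D : Derivation k K K) (δ : ℤ), DOrd v D δ → ∀ (r : ℕ) (p A B E B₁ : K[X]) (ρ τ : K) (a : ℤ),
  3 ≤ r → 0 ≤ a → p.Monic → p.natDegree = r → Cge v (-a) p → p.eval τ ≠ 0 → ρ ≠ 0 →
  ge v (-(2 * r * a)) ρ →
  A.natDegree ≤ r - 2 → B.natDegree ≤ r - 1 → A * p + B * derivative p = C ρ →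
  Cge v (-(2 * r * a)) A → Cge v (-(2 * r * a)) B →
  E.natDegree ≤ r - 2 → B₁.natDegree ≤ r - 1 → E * p + B₁ * derivative p = - (C ρ * cD D p) →
  Cge v (δ - (2 * r + 2) * a) E → Cge v (δ - (2 * r + 2) * a) B₁ →
  ge v (δ - (r - 1) * pe v τ + max 0 (v.ord (p.eval τ) + a + r * pe v τ - 1)
    - (v.ord ρ + 2 * r * a) - 5 * r * a) (ρ * D τ - B₁.eval τ)

/-- MSM: the inequality if `Ω ≠ 0` -/
def T_MSM : Prop := ∀ (k K : Type) [Field k] [IsAlgClosed k] [CharZero k] [Field K] [Algebra k K]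
  [Algebra.EssFiniteType k K], Algebra.trdeg k K = 1 → ∀ D : Derivation k K K, D ≠ 0 →
  ∀ (S : Finset (DV k K)) (r : ℕ) (p B₁ : K[X]) (ρ τ : K) (a b : DV k K → ℕ), 3 ≤ r →
  p.Monic → a.support.Finite → b.support.Finite → (∀ v, Cge v (-(a v)) p) → p.natDegree = r →
  p.eval τ ≠ 0 → ρ ≠ 0 → (∀ v, ge v (-(2 * r * a v)) ρ) → ρ * D τ - B₁.eval τ ≠ 0 →
  (∀ v ∉ S, v.ord (p.eval τ) + a v + r * pe v τ ≤ b v) →
  (∀ v, ge v (ordD v D - (r - 1) * pe v τ + max 0 (v.ord (p.eval τ) + a v + r * pe v τ - 1)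
    - (v.ord ρ + 2 * r * a v) - 5 * r * a v) (ρ * D τ - B₁.eval τ)) →
  ∑ᶠ v : DV k K, pe v τ ≤ canDeg D + S.card + ∑ᶠ v, (b v : ℤ) + 7 * r * ∑ᶠ v, (a v : ℤ)

/-- DG3: the case `ρ τ' = B₁(τ)`, degree of `B₁` at least three -/
def T_DG3 : Prop := ∀ (k K : Type) [Field k] [IsAlgClosed k] [CharZero k] [Field K] [Algebra k K]
  [Algebra.EssFiniteType k K], Algebra.trdeg k K = 1 → ∀ D : Derivation k K K, D ≠ 0 →
  ∀ (r : ℕ) (B₁ : K[X]) (ρ τ : K) (a : DV k K → ℕ), ρ ≠ 0 → a.support.Finite →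
  (∀ v, ge v (-(2 * r * a v)) ρ) → (∀ v, Cge v (ordD v D - (2 * r + 2) * a v) B₁) →
  3 ≤ B₁.natDegree → ρ * D τ = B₁.eval τ →
  ∑ᶠ v : DV k K, pe v τ ≤ canDeg D + (2 * r + 2) * ∑ᶠ v, (a v : ℤ)

/-- RTB: height of a root of a polynomial -/
def T_RTB : Prop := ∀ (k K : Type) [Field k] [IsAlgClosed k] [CharZero k] [Field K] [Algebra k K]
  [Algebra.EssFiniteType k K], Algebra.trdeg k K = 1 → ∀ (g : K[X]) (τ : K) (a : DV k K → ℕ),
  g ≠ 0 → g.eval τ = 0 → a.support.Finite → (∀ v, Cge v (-(a v)) g) →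
  ∑ᶠ v : DV k K, pe v τ ≤ ∑ᶠ v, (a v : ℤ)

/-- the Hessian covariant of a polynomial of degree `r` -/
noncomputable def hes {K : Type} [Field K] (r : ℕ) (p : K[X]) : K[X] :=
  (r : K[X]) * p * derivative (derivative p) - ((r : K[X]) - 1) * derivative p ^ 2

/-- the Jacobian of `p` and `hes r p` -/
noncomputable def jac {K : Type} [Field K] (r : ℕ) (p : K[X]) : K[X] :=
  (r : K[X]) * p * derivative (hes r p) - (2 * (r : K[X]) - 4) * derivative p * hes r p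

/-- RIC: a solution of the Riccati equation of the roots of `p` is a root of a covariant with
constant coefficients -/
def T_RIC : Prop := ∀ (k K : Type) [Field k] [Field K] [CharZero K] [Algebra k K]
  (D : Derivation k K K), (∀ z : K, D z = 0 → z ∈ Set.range (algebraMap k K)) →
  ∀ (r : ℕ) (p c e : K[X]) (τ : K), 1 ≤ r → p.Monic → p.natDegree = r → c.natDegree ≤ 2 →
  cD D p + c * derivative p = e * p → D τ = c.eval τ →
  (hes r p).eval τ = 0 ∨ ∃ z : k, (jac r p ^ 2 - C (algebraMap k K z) * hes r p ^ 3).eval τ = 0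

/-- JQN: the covariants of a polynomial with at least three roots -/
def T_JQN : Prop := ∀ (K : Type) [Field K] [CharZero K] (r : ℕ) (p : K[X]) (z : K), 3 ≤ r →
  p.Monic → p.natDegree = r → IsCoprime p (derivative p) → IsSquare z → hes r p ≠ 0 ∧
  jac r p ^ 2 - C z * hes r p ^ 3 ≠ 0

/-- JQB: bounds of the coefficients of the covariants -/
def T_JQB : Prop := ∀ (k K : Type) [Field k] [Field K] [CharZero K] [Algebra k K] (v : DV k K)
  (a : ℤ) (r : ℕ) (p : K[X]) (z : k), 0 ≤ a → Cge v (-a) p → Cge v (-(6 * a)) (hes r p) ∧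
  Cge v (-(6 * a)) (jac r p ^ 2 - C (algebraMap k K z) * hes r p ^ 3)

/-- MM1: moving Mason for squarefree monic polynomials -/
def T_MM1 : Prop := ∀ (k K : Type) [Field k] [IsAlgClosed k] [CharZero k] [Field K] [Algebra k K]
  [Algebra.EssFiniteType k K], Algebra.trdeg k K = 1 → ∀ D : Derivation k K K, D ≠ 0 →
  ∀ (S : Finset (DV k K)) (r : ℕ) (p : K[X]) (τ : K) (a b : DV k K → ℕ), 3 ≤ r →
  p.Monic → p.natDegree = r → IsCoprime p (derivative p) → a.support.Finite →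
  b.support.Finite → (∀ v, Cge v (-(a v)) p) → p.eval τ ≠ 0 →
  (∀ v ∉ S, v.ord (p.eval τ) + a v + r * pe v τ ≤ b v) →
  ∑ᶠ v : DV k K, pe v τ ≤ max 0 (canDeg D + S.card) + ∑ᶠ v, (b v : ℤ) +
    7 * r * ∑ᶠ v, (a v : ℤ)

/-- RAD: the squarefree part -/
def T_RAD : Prop := ∀ (K : Type) [Field K] [CharZero K] (P : K[X]), P ≠ 0 →
  ∃ G p : K[X], G.Monic ∧ p.Monic ∧ P = C P.leadingCoeff * (G * p) ∧
    IsCoprime p (derivative p) ∧ p.natDegree = nr P

/-- MM: moving Mason -/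
def T_MM : Prop := ∀ (k K : Type) [Field k] [IsAlgClosed k] [CharZero k] [Field K] [Algebra k K]
  [Algebra.EssFiniteType k K], Algebra.trdeg k K = 1 → ∀ D : Derivation k K K, D ≠ 0 →
  ∀ (S : Finset (DV k K)) (d : ℕ) (P : K[X]) (τ : K) (a : DV k K → ℕ), P.natDegree = d →
  3 ≤ nr P → a.support.Finite → (∀ v, Cge v (-(a v)) P) → P.eval τ ≠ 0 →
  (∀ v ∉ S, v.ord (P.eval τ) ≤ a v - d * pe v τ) →
  ∑ᶠ v : DV k K, pe v τ ≤ max 0 (canDeg D + S.card) + (7 * d + 3) * ∑ᶠ v, (a v : ℤ)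

/-- TWI: change of the points on a line -/
def T_TWI : Prop := ∀ (L : Type) [Field L] (n d : ℕ) (F : MvPolynomial (Fin (n + 1)) L)
  (x y x' y' : Fin (n + 1) → L) (a b c e : L), x = lpt x' y' a b → y = lpt x' y' c e →
  a * e - b * c ≠ 0 → TwoPt d F x y → TwoPt d F x' y'

/-- TWP: a polynomial with at most two roots -/
def T_TWP : Prop := ∀ (K : Type) [Field K] [CharZero K] (P : K[X]) (d : ℕ), 2 ≤ d →
  P.natDegree = d → nr P < 3 → ∃ (a b : ℕ) (α β : AlgebraicClosure K), a + b + 2 = d ∧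
  P.map (algebraMap K (AlgebraicClosure K)) =
    C (algebraMap K (AlgebraicClosure K) P.leadingCoeff) *
      ((X - C α) ^ (a + 1) * (X - C β) ^ (b + 1))

/-- LIN: points on a line of small height -/
def T_LIN : Prop := ∀ (k K : Type) [Field k] [IsAlgClosed k] [CharZero k] [Field K] [Algebra k K]
  [Algebra.EssFiniteType k K], Algebra.trdeg k K = 1 → ∀ D : Derivation k K K, D ≠ 0 →
  ∀ (S : Finset (DV k K)) (n d : ℕ) (F : MvPolynomial (Fin (n + 1)) k)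
  (x y : Fin (n + 1) → K), 2 ≤ d → F.IsHomogeneous d → plu x y ≠ 0 →
  ¬ TwoPt d (MvPolynomial.map (algebraMap k (AlgebraicClosure K)) F)
    (fun i => algebraMap K (AlgebraicClosure K) (x i))
    (fun i => algebraMap K (AlgebraicClosure K) (y i)) →
  MvPolynomial.aeval x F ≠ 0 → (∀ v ∉ S, v.ord (MvPolynomial.aeval x F) = - (d * lh v x)) →
  hgt k x ≤ max 0 (canDeg D + S.card) + (7 * d ^ 2 + 3 * d + 1) * hgt k (plu x y)

end Pool.Agent.H30.VGH
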